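import Pool.Agent.Lib.MP_688fd0_co.SQ4.E.Gauge
import Pool.Agent.Lib.MP_688fd0_co.SQ4.H98.WordsC

/-!
The affine line: the group `Aff V` of pairs `(q, v)`, fixed points, potentials.
-/

set_option autoImplicit false

namespace Pool.Agent.Lib.MP_688fd0_co.SQ4

open Pool.Agent.Lib.MP_688fd0_co.OSF Pool.Agent.Lib.MP_688fd0_co.SQ2 Pool.Agent.Lib.MP_688fd0_co.SQ3

universe u v w

/-- Affine maps over elements of `Q`. -/
@[ext] structure Aff {Q : Type u} [Group Q] {B : Lb.{u, v} Q} {F : Type w} [Field F] (V : Vd B F) where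
  q : Q
  v : F

namespace Aff

variable {Q : Type u} [Group Q] {B : Lb.{u, v} Q} {F : Type w} [Field F] {V : Vd B F}

instance : Mul (Aff V) := ⟨fun x y => ⟨x.q * y.q, x.v + V.chi x.q * y.v⟩⟩
instance : One (Aff V) := ⟨⟨1, 0⟩⟩
instance : Inv (Aff V) := ⟨fun x => ⟨x.q⁻¹, -(V.chi x.q⁻¹ * x.v)⟩⟩

@[simp] theorem mul_q (x y : Aff V) : (x * y).q = x.q * y.q := rfl
@[simp] theorem mul_v (x y : Aff V) : (x * y).v = x.v + V.chi x.q * y.v := rfl
@[simp] theorem one_q : (1 : Aff V).q = 1 := rfl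
@[simp] theorem one_v : (1 : Aff V).v = 0 := rfl
@[simp] theorem inv_q (x : Aff V) : x⁻¹.q = x.q⁻¹ := rfl
@[simp] theorem inv_v (x : Aff V) : x⁻¹.v = -(V.chi x.q⁻¹ * x.v) := rfl

instance : Group (Aff V) where
  mul_assoc x y z := by
    ext
    · simp [mul_assoc]
    · simp only [mul_v, mul_q, map_mul]; ring
  one_mul x := by ext <;> simp
  mul_one x := by ext <;> simp
  inv_mul_cancel x := by
    ext
    · simp
    · simp only [mul_v, inv_v, inv_q, one_v]
      ring

/-- The projection to `Q`. -/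
def pr (V : Vd B F) : Aff V →* Q where
  toFun := Aff.q
  map_one' := rfl
  map_mul' _ _ := rfl

/-- The action on the line. -/
def act (x : Aff V) (y : F) : F := x.v + V.chi x.q * y

@[simp] theorem act_one (y : F) : act (1 : Aff V) y = y := by unfold act; simp

theorem act_mul (x x' : Aff V) (y : F) : act (x * x') y = act x (act x' y) := by
  unfold act
  simp only [mul_v, mul_q, map_mul]; ring

theorem act_inv {x : Aff V} {y : F} (h : act x y = y) : act x⁻¹ y = y := by
  have h1 : act x⁻¹ (act x y) = y := by rw [← act_mul, inv_mul_cancel, act_one]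
  rwa [h] at h1

theorem act_inj (x : Aff V) {y y' : F} (h : act x y = act x y') : y = y' := by
  have h1 : ∀ y, act x⁻¹ (act x y) = y := fun y => by rw [← act_mul, inv_mul_cancel, act_one]
  rw [← h1 y, h, h1]

theorem act_inv_iff {x : Aff V} {y : F} : act x⁻¹ y = y ↔ act x y = y :=
  ⟨fun h => by have := act_inv h; rwa [inv_inv] at this, act_inv⟩

/-- The label `l` as an element of `Aff V`. -/
def lb (V : Vd B F) (l : B.L) : Aff V := ⟨B.q l, V.n l⟩

@[simp] theorem lb_q (l : B.L) : (lb V l).q = B.q l := rfl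
@[simp] theorem lb_v (l : B.L) : (lb V l).v = V.n l := rfl

theorem lb_inv (l : B.L) : lb V (B.inv l) = (lb V l)⁻¹ := by
  ext
  · simp [B.q_inv]
  · simp [V.n_inv]

/-- The product of a word. -/
def wd (V : Vd B F) (w : List B.L) : Aff V := (w.map (lb V)).prod

@[simp] theorem wd_nil : wd V [] = 1 := rfl

theorem wd_cons (l : B.L) (w : List B.L) : wd V (l :: w) = lb V l * wd V w := by
  unfold wd; rw [List.map_cons, List.prod_cons]

theorem wd_append (w w' : List B.L) : wd V (w ++ w') = wd V w * wd V w' := by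
  unfold wd; rw [List.map_append, List.prod_append]

theorem fin_wd (w : List B.L) (x : Q) : B.fin x w = x * (wd V w).q := by
  induction w generalizing x with
  | nil => show x = x * 1; rw [mul_one]
  | cons l w ih =>
    show B.fin (x * B.q l) w = _
    rw [ih, wd_cons, mul_q, lb_q, mul_assoc]

theorem act_wd (w : List B.L) (y : F) : act (wd V w) y = affw V w y := by
  induction w with
  | nil => exact act_one y
  | cons l w ih => rw [wd_cons, act_mul, ih]; rfl

theorem chi_mul_inv (x : Q) : V.chi x * V.chi x⁻¹ = 1 := by rw [← map_mul, mul_inv_cancel, map_one]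

theorem chi_ne_zero (x : Q) : V.chi x ≠ 0 := fun h => by
  have := chi_mul_inv (V := V) x
  rw [h, zero_mul] at this
  exact zero_ne_one this

/-- A subgroup over a finite subgroup of order `≠ 0` in `F` has a fixed point or contains a translation. -/
theorem fix_or_trans (T : Subgroup (Aff V)) (D : Subgroup Q) [Finite D] (hD : ((Nat.card D : ℕ) : F) ≠ 0)
    (hT : ∀ t ∈ T, t.q ∈ D) : (∃ f, ∀ t ∈ T, act t f = f) ∨ ∃ t ∈ T, t.q = 1 ∧ t.v ≠ 0 := by
  classical
  by_cases h : ∃ t ∈ T, t.q = 1 ∧ t.v ≠ 0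
  · exact Or.inr h
  push Not at h
  refine Or.inl ?_
  let φ : T →* D :=
    { toFun := fun t => ⟨t.1.q, hT _ t.2⟩
      map_one' := rfl
      map_mul' := fun _ _ => rfl }
  have hφ : Function.Injective φ := by
    rw [injective_iff_map_eq_one]
    intro t ht
    have h1 : t.1.q = 1 := congrArg Subtype.val ht
    exact Subtype.ext (Aff.ext h1 (h t.1 t.2 h1))
  have hfin : Finite T := Finite.of_injective φ hφ
  have : Fintype T := Fintype.ofFinite T
  have hcard : ((Nat.card T : ℕ) : F) ≠ 0 := by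
    intro h0
    apply hD
    obtain ⟨m, hm⟩ := Subgroup.card_dvd_of_injective φ hφ
    rw [hm, Nat.cast_mul, h0, zero_mul]
  have hcard' : ((Fintype.card T : ℕ) : F) ≠ 0 := by rwa [← Nat.card_eq_fintype_card]
  refine ⟨(∑ t : T, t.1.v) / (Fintype.card T : F), fun y hy => ?_⟩
  have e1 : (∑ t : T, t.1.v) = ∑ t : T, ((⟨y, hy⟩ * t : T) : Aff V).v :=
    (Equiv.sum_comp (Equiv.mulLeft (⟨y, hy⟩ : T)) fun t : T => t.1.v).symm
  have e2 : ∀ t : T, ((⟨y, hy⟩ * t : T) : Aff V).v = y.v + V.chi y.q * t.1.v := fun t => rfl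
  have e3 : (∑ t : T, t.1.v) = (Fintype.card T : F) * y.v + V.chi y.q * ∑ t : T, t.1.v := by
    refine e1.trans ?_
    simp only [e2]
    rw [Finset.sum_add_distrib, Finset.sum_const, Finset.card_univ, nsmul_eq_mul, ← Finset.mul_sum]
  unfold act
  rw [← mul_div_assoc, eq_div_iff hcard', add_mul, div_mul_cancel₀ _ hcard']
  linear_combination -e3

/-- The volume of an edge between two vertical paths of volume zero. -/
theorem evA_move {eps : Q →* ℤˣ} {u u' : F} {ρ ρ' : Q} {p p' : List B.L} {l : B.L} (hρ : eps ρ = 1) (hρ' : eps ρ' = 1)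
    (he : B.fin ρ p * B.q l = B.fin ρ' p') (h : (evA V eps u u').vol ρ p = 0) (h' : (evA V eps u u').vol ρ' p' = 0) :
    (evA V eps u u').e (B.fin ρ p) l = V.chi ρ * (act (wd V p * lb V l * (wd V p')⁻¹) u - u) := by
  have h1 : (evA V eps u u').vol ρ (p ++ [l]) = (evA V eps u u').e (B.fin ρ p) l := by
    rw [Ev.vol_append, h, zero_add]
    show (evA V eps u u').e _ l + 0 = _
    rw [add_zero]
  have p1 : ∀ x, eps x = 1 → ptA eps u u' x = u := fun x hx => if_pos hx
  have hfin : B.fin ρ (p ++ [l]) = B.fin ρ' p' := by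
    rw [← he, fin_wd (V := V) (p ++ [l]), wd_append, mul_q, ← mul_assoc, fin_wd (V := V) p, wd_cons, wd_nil, mul_one,
      lb_q]
  rw [← h1, evA_vol, p1 ρ hρ, hfin]
  have h2 := evA_vol V eps u u' p' ρ'
  rw [h', p1 ρ' hρ'] at h2
  have h3 : affw V p' (ptA eps u u' (B.fin ρ' p')) = u := by
    have := mul_eq_zero.1 h2.symm
    rcases this with h4 | h4
    · exact absurd h4 (chi_ne_zero _)
    · exact sub_eq_zero.1 h4
  have h4 : act (wd V p')⁻¹ u = ptA eps u u' (B.fin ρ' p') := by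
    rw [← act_wd] at h3
    have : act (wd V p')⁻¹ (act (wd V p') (ptA eps u u' (B.fin ρ' p'))) = ptA eps u u' (B.fin ρ' p') := by
      rw [← act_mul, inv_mul_cancel, act_one]
    rw [h3] at this
    exact this
  have h5 : affw V (p ++ [l]) (ptA eps u u' (B.fin ρ' p')) = act (wd V p * lb V l * (wd V p')⁻¹) u := by
    rw [← act_wd, wd_append, act_mul (wd V p * lb V l), h4, wd_cons, wd_nil, mul_one]
  rw [h5]

/-- A potential for the moves in `X` gives a common fixed point. -/
theorem exact_fix (D : Subgroup Q) [Finite D] (hD : ((Nat.card D : ℕ) : F) ≠ 0) (X : Set (Aff V))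
    (hX : ∀ x ∈ X, x.q ∈ D) (S : Set Q) (hS : ∀ ρ ∈ S, ∀ x ∈ X, ρ * x.q ∈ S) (hne : S.Nonempty) (u : F) (β : Q → F)
    (hβ : ∀ ρ ∈ S, ∀ x ∈ X, β (ρ * x.q) - β ρ = V.chi ρ * (act x u - u)) : ∃ f, ∀ x ∈ X, act x f = f := by
  have hTD : ∀ t ∈ Subgroup.closure X, t.q ∈ D := by
    intro t ht
    have : Subgroup.closure X ≤ D.comap (pr V) := by
      rw [Subgroup.closure_le]
      intro x hx
      exact hX x hx
    exact this ht
  have hSinv : ∀ x ∈ X, ∀ ρ ∈ S, ρ * x.q⁻¹ ∈ S := by
    intro x hx ρ hρ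
    have h1 : ∀ n : ℕ, ρ * x.q ^ n ∈ S := by
      intro n
      induction n with
      | zero => rwa [pow_zero, mul_one]
      | succ n ih => rw [pow_succ, ← mul_assoc]; exact hS _ ih x hx
    obtain ⟨n, hn, hn'⟩ : ∃ n : ℕ, 0 < n ∧ x.q ^ n = 1 := by
      have h2 : IsOfFinOrder (⟨x.q, hX x hx⟩ : D) := isOfFinOrder_of_finite _
      obtain ⟨n, hn, h3⟩ := isOfFinOrder_iff_pow_eq_one.1 h2
      exact ⟨n, hn, congrArg Subtype.val h3⟩
    have h2 := h1 (n - 1)
    have h3 : x.q ^ (n - 1) = x.q⁻¹ := by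
      rw [eq_inv_iff_mul_eq_one, ← pow_succ, Nat.sub_add_cancel hn, hn']
    rwa [h3] at h2
  have key : ∀ t ∈ Subgroup.closure X, ∀ ρ ∈ S, ρ * t.q ∈ S ∧ β (ρ * t.q) - β ρ = V.chi ρ * (act t u - u) := by
    intro t ht
    induction ht using Subgroup.closure_induction with
    | mem x hx => exact fun ρ hρ => ⟨hS ρ hρ x hx, hβ ρ hρ x hx⟩
    | one => exact fun ρ hρ => ⟨by rw [one_q, mul_one]; exact hρ, by rw [one_q, mul_one, act_one]; ring⟩
    | mul x y _ _ ihx ihy =>
      intro ρ hρ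
      obtain ⟨h1, h2⟩ := ihx ρ hρ
      obtain ⟨h3, h4⟩ := ihy _ h1
      rw [mul_q, ← mul_assoc]
      refine ⟨h3, ?_⟩
      rw [act_mul]
      have e1 : act x (act y u) - u = V.chi x.q * (act y u - u) + (act x u - u) := by unfold act; ring
      rw [e1]
      rw [map_mul] at h4
      linear_combination h2 + h4
    | inv x hx ih =>
      intro ρ hρ
      have hinvS : ∀ y ∈ Subgroup.closure X, ∀ ρ ∈ S, ρ * y.q ∈ S ∧ ρ * y.q⁻¹ ∈ S := by
        intro y hy
        induction hy using Subgroup.closure_induction with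
        | mem y hy => exact fun ρ hρ => ⟨hS ρ hρ y hy, hSinv y hy ρ hρ⟩
        | one => exact fun ρ hρ => by simpa using hρ
        | mul y y' _ _ i1 i2 =>
          intro ρ hρ
          refine ⟨?_, ?_⟩
          · rw [mul_q, ← mul_assoc]; exact (i2 _ (i1 ρ hρ).1).1
          · rw [mul_q, mul_inv_rev, ← mul_assoc]; exact (i1 _ (i2 ρ hρ).2).2
        | inv y _ i1 =>
          intro ρ hρ
          rw [inv_q, inv_inv]
          exact ⟨(i1 ρ hρ).2, (i1 ρ hρ).1⟩
      have h1 : ρ * x.q⁻¹ ∈ S := (hinvS x hx ρ hρ).2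
      obtain ⟨_, h2⟩ := ih _ h1
      rw [inv_mul_cancel_right, map_mul] at h2
      refine ⟨h1, ?_⟩
      have e1 : act x⁻¹ u - u = - (V.chi x.q⁻¹ * (act x u - u)) := by
        unfold act
        rw [inv_v, inv_q]
        have := chi_mul_inv (V := V) x.q
        linear_combination u * this
      rw [e1, inv_q]
      linear_combination -h2
  rcases fix_or_trans (Subgroup.closure X) D hD hTD with ⟨f, hf⟩ | ⟨t, ht, h1, h2⟩
  · exact ⟨f, fun x hx => hf x (Subgroup.subset_closure hx)⟩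
  · obtain ⟨ρ, hρ⟩ := hne
    have h3 := (key t ht ρ hρ).2
    rw [h1, mul_one, sub_self] at h3
    rcases mul_eq_zero.1 h3.symm with h4 | h4
    · exact absurd h4 (chi_ne_zero _)
    · exfalso
      apply h2
      unfold act at h4
      rw [h1, map_one] at h4
      linear_combination h4

end Aff

end Pool.Agent.Lib.MP_688fd0_co.SQ4
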