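import Pool.Agent.Lib.MP_688fd0_co.SQ4.IfaceV
import Pool.Agent.Lib.MP_688fd0_co.SQ4.E.Aff

/-!
ALG (case 0 of plan P1): exact volumes on the components and good letters contradict `KapV`.

* `famB_fix`, `famX_fix`: a potential on a component of a family gives a fixed point of the moves;
* `algC`: the fixed points contradict `KapV`.
-/

set_option autoImplicit false

namespace Pool.Agent.Lib.MP_688fd0_co.SQ4.CV

open Pool.Agent.Lib.MP_688fd0_co.OSF Pool.Agent.Lib.MP_688fd0_co.SQ2 Pool.Agent.Lib.MP_688fd0_co.SQ3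
open Pool.Agent.Lib.MP_688fd0_co.SQ4

/-! ### Words -/

section words

variable {Q : Type} [Group Q] {B : Lb.{0, 0} Q} {a b : B.L} {eps : Q →* ℤˣ} {D : Subgroup Q} {z : Q} {k : ℕ}
  {F : Type} [Field F]

theorem wd_rev (V : Vd B F) (w : List B.L) : Aff.wd V (B.rev w) = (Aff.wd V w)⁻¹ := by
  induction w with
  | nil =>
    show Aff.wd V [] = (Aff.wd V [])⁻¹
    rw [Aff.wd_nil, inv_one]
  | cons l w ih =>
    rw [rev_cons, Aff.wd_append, ih, Aff.wd_cons, Aff.wd_cons, Aff.wd_nil, mul_one, Aff.lb_inv, mul_inv_rev]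

/-- `w` in the affine group. -/
def wA (V : Vd B F) (a b : B.L) : Aff V := Aff.lb V a * (Aff.lb V b)⁻¹

theorem wd_flat_cons (V : Vd B F) (p : B.L × B.L) (L : List (B.L × B.L)) :
    Aff.wd V (flat (p :: L)) = Aff.lb V p.1 * (Aff.lb V p.2)⁻¹ * Aff.wd V (flat L) := by
  show Aff.wd V (p.1 :: B.inv p.2 :: flat L) = _
  rw [Aff.wd_cons, Aff.wd_cons, Aff.lb_inv, mul_assoc]

theorem wd_flat_rep (V : Vd B F) (n : ℕ) : Aff.wd V (flat (List.replicate n (a, b))) = wA V a b ^ n := by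
  induction n with
  | zero => rw [pow_zero]; rfl
  | succ n ih => rw [List.replicate_succ, wd_flat_cons, ih, pow_succ']; rfl

variable (H : HypC B a b eps D z k)

include H in
theorem wd_str (V : Vd B F) (i : ℕ) : ∀ x : Q, eps x = 1 → Aff.wd V (H.up.str (2 * i) x) = wA V a b ^ i ∧
    Aff.wd V (H.up.str (2 * i + 1) x) = wA V a b ^ i * Aff.lb V a := by
  induction i with
  | zero =>
    intro x hx
    refine ⟨by rw [pow_zero]; rfl, ?_⟩
    show Aff.wd V [H.up.up x] = _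
    rw [H31.C_up H, if_pos hx, pow_zero, one_mul, Aff.wd_cons, Aff.wd_nil, mul_one]
  | succ i ih =>
    intro x hx
    have hx1 : eps (H.up.U x) ≠ 1 := by rw [H31.C_U_one H hx, map_mul, hx, H.ea]; decide
    have hx2 : eps (H.up.U (H.up.U x)) = 1 := by rw [H31.C_U_two H hx, map_mul, hx, H31.C_eps_w H, one_mul]
    obtain ⟨h1, h2⟩ := ih _ hx2
    constructor
    · show Aff.wd V (H.up.up x :: H.up.up (H.up.U x) :: H.up.str (2 * i) (H.up.U (H.up.U x))) = _
      rw [Aff.wd_cons, Aff.wd_cons, h1, H31.C_up H, H31.C_up H, if_pos hx, if_neg hx1, Aff.lb_inv, pow_succ',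
        ← mul_assoc]
      rfl
    · show Aff.wd V (H.up.up x :: H.up.up (H.up.U x) :: H.up.str (2 * i + 1) (H.up.U (H.up.U x))) = _
      rw [Aff.wd_cons, Aff.wd_cons, h2, H31.C_up H, H31.C_up H, if_pos hx, if_neg hx1, Aff.lb_inv, pow_succ',
        ← mul_assoc, ← mul_assoc]
      rfl

theorem wd_IW (V : Vd B F) (U : Up B) (L : List (B.L × B.L)) (n : ℕ) (t : B.L) :
    Aff.wd V (IW U L n t) = Aff.wd V (flat L ++ U.str n 1) * Aff.lb V t * (Aff.wd V (flat L ++ U.str n 1))⁻¹ := by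
  unfold IW
  rw [Aff.wd_append, Aff.wd_cons, Aff.wd_append (B.rev _), wd_rev, wd_rev, Aff.wd_append (flat L), mul_inv_rev]
  simp only [mul_assoc]

theorem wd_CW (V : Vd B F) (i j : ℕ) (s : B.L) :
    Aff.wd V (CW H.up i j s) = wA V a b ^ i * Aff.lb V s * (wA V a b ^ j * Aff.lb V a)⁻¹ := by
  unfold CW
  rw [Aff.wd_append, Aff.wd_cons, wd_rev, (wd_str H V i 1 (map_one eps)).1, (wd_str H V j 1 (map_one eps)).2,
    mul_assoc]

end words

/-! ### The algebra of the affine line -/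

section alg

variable {Q : Type} [Group Q] {B : Lb.{0, 0} Q} {a b : B.L} {eps : Q →* ℤˣ} {D : Subgroup Q} {z : Q} {k : ℕ}
  (H : HypC B a b eps D z k) {F : Type} [Field F] (V : Vd B F)

/-- `f` is fixed by the inner moves. -/
structure InnF (f : F) : Prop where
  pl : ∀ t, eps (B.q t) = 1 → ∀ n < 2 * k, (Aff.wd V (IW H.up [] n t)).act f = f
  bl : ∀ t, eps (B.q t) = 1 → ∀ p, Nr1 B a b D p →
    (Aff.wd V (IW H.up (p :: List.replicate (k - 1) (a, b)) 0 t)).act f = f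

/-- `f` is fixed by the inner moves and by the loops through the cross rungs of `s`. -/
structure CrsF (s : B.L) (i j : ℕ) (f : F) : Prop where
  inn : InnF H V f
  rot : ∀ t, eps (B.q t) = 1 → (Aff.wd V (CW H.up i j s) * Aff.lb V t * (Aff.wd V (CW H.up i j s))⁻¹).act f = f
  com : (Aff.wd V (CW H.up (i + 1) (j + 1) s) * (Aff.wd V (CW H.up i j s))⁻¹).act f = f

variable {V}

theorem fix_mul {x y : Aff V} {f : F} (h : x.act f = f) (h' : y.act f = f) : (x * y).act f = f := by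
  rw [Aff.act_mul, h', h]

theorem fix_pow {x : Aff V} {f : F} (h : x.act f = f) (n : ℕ) : (x ^ n).act f = f := by
  induction n with
  | zero => rw [pow_zero, Aff.act_one]
  | succ n ih => rw [pow_succ]; exact fix_mul ih h

/-- Unique fixed points: `x t x⁻¹` fixes `f`, `f` is the only fixed point of `t`. -/
theorem fix_conj {x t : Aff V} {f : F} (ht : ∀ y, t.act y = y → y = f) (h : (x * t * x⁻¹).act f = f) :
    x.act f = f := by
  have h1 : t.act (x⁻¹.act f) = x⁻¹.act f := by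
    apply Aff.act_inj x
    rw [← Aff.act_mul, ← Aff.act_mul, h, ← Aff.act_mul, mul_inv_cancel, Aff.act_one]
  exact Aff.act_inv_iff.1 (ht _ h1)

include H in
theorem SI_le : SI B a b eps D z k ⊆ D := by
  rintro q ⟨m, _, n, t, ht, rfl⟩
  exact H.nD.conj_mem _ (H.near t ht) _

include H in
theorem EI_le : EI B a b eps D z k ≤ D := (Subgroup.closure_le _).2 (SI_le H)

theorem EI_chi (h1 : ∀ t, eps (B.q t) = 1 → V.chi (B.q t) = 1) {x : Q} (hx : x ∈ EI B a b eps D z k) :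
    V.chi x = 1 := by
  have : EI B a b eps D z k ≤ V.chi.ker := by
    unfold EI
    rw [Subgroup.closure_le]
    rintro q ⟨m, _, n, t, ht, rfl⟩
    show V.chi _ = 1
    rw [map_mul, map_mul, h1 t ht, mul_one, Aff.chi_mul_inv]
  exact this hx

include H in
theorem near_of_EI {s : B.L} (h : B.q s * (B.q a)⁻¹ ∈ EI B a b eps D z k) : Nr1 B a b D (s, b) := by
  refine ⟨⟨?_, ?_⟩, Or.inr rfl⟩
  · have := H.nD.conj_mem _ (EI_le H h) (B.q a)⁻¹
    rwa [inv_inv, mul_assoc, mul_assoc, inv_mul_cancel, mul_one] at this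
  · show (B.q b)⁻¹ * B.q b ∈ D
    rw [inv_mul_cancel]; exact D.one_mem

include H in
theorem near_of_EI' {s : B.L} (h : B.q s * (B.q b)⁻¹ ∈ EI B a b eps D z k) : Nr1 B a b D (a, s) := by
  refine ⟨⟨?_, ?_⟩, Or.inl rfl⟩
  · show (B.q a)⁻¹ * B.q a ∈ D
    rw [inv_mul_cancel]; exact D.one_mem
  · have := H.nD.conj_mem _ (EI_le H h) (B.q b)⁻¹
    rwa [inv_inv, mul_assoc, mul_assoc, inv_mul_cancel, mul_one] at this

/-- `kapW` is zero when `w` and `σ s` commute at a point. -/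
theorem kapW_of_com {s : B.L} {y : F} (h : (wA V a b * (Aff.lb V s * (Aff.lb V a)⁻¹)).act y =
    ((Aff.lb V s * (Aff.lb V a)⁻¹) * wA V a b).act y) : kapW V a b s = 0 := by
  unfold kapW
  unfold Aff.act wA at h
  simp only [Aff.mul_v, Aff.mul_q, Aff.lb_q, Aff.lb_v, Aff.inv_v, Aff.inv_q, map_mul] at h
  simp only [map_mul]
  linear_combination h

/-- The rotations act trivially or have one common fixed point: the first alternative fails for `chi = 1`. -/
theorem InnF.n_zero {f : F} (h : InnF H V f) {t : B.L} (ht : eps (B.q t) = 1) (h1 : V.chi (B.q t) = 1) :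
    V.n t = 0 := by
  have h2 := h.pl t ht 0 (Nat.mul_pos Nat.two_pos H.kpos)
  rw [wd_IW] at h2
  have h3 : Aff.wd V (flat [] ++ H.up.str 0 1) = 1 := rfl
  rw [h3, one_mul, inv_one, mul_one] at h2
  unfold Aff.act at h2
  rw [Aff.lb_q, Aff.lb_v, h1] at h2
  linear_combination h2

include H in
theorem algC (hG : GoodL a b D V) (hI : ∃ f, InnF H V f)
    (hC : ∀ s, EffL B a b eps D z k s → ∃ i j f, CrsF H V s i j f) : ¬ KapV V a b eps := by
  obtain ⟨f, hf⟩ := hI
  by_cases hrot : ∃ t₀ : B.L, eps (B.q t₀) = 1 ∧ V.chi (B.q t₀) ≠ 1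
  · obtain ⟨t₀, ht₀, hchi⟩ := hrot
    have huniq : ∀ y y', (Aff.lb V t₀).act y = y → (Aff.lb V t₀).act y' = y' → y = y' := by
      intro y y' h1 h2
      unfold Aff.act at h1 h2
      have h3 : (V.chi (B.q t₀) - 1) * (y - y') = 0 := by
        simp only [Aff.lb_q, Aff.lb_v] at h1 h2
        linear_combination h1 - h2
      rcases mul_eq_zero.1 h3 with h4 | h4
      · exact absurd (sub_eq_zero.1 h4) hchi
      · exact sub_eq_zero.1 h4
    have hk2 : 2 < 2 * k := by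
      by_contra hcon
      have hk1 : k = 1 := by have := H.kpos; omega
      apply hchi
      have h1 : Nat.card D = 1 := Nat.dvd_one.1 (hk1 ▸ H.card)
      have h2 : B.q t₀ ∈ D := H.near t₀ ht₀
      have h3 : D = ⊥ := Subgroup.card_eq_one.1 h1
      rw [h3, Subgroup.mem_bot] at h2
      rw [h2, map_one]
    have hfix0 : ∀ f', InnF H V f' → (Aff.lb V t₀).act f' = f' := by
      intro f' h'
      have h2 := h'.pl t₀ ht₀ 0 (Nat.mul_pos Nat.two_pos H.kpos)
      rw [wd_IW] at h2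
      have h3 : Aff.wd V (flat [] ++ H.up.str 0 1) = 1 := rfl
      rwa [h3, one_mul, inv_one, mul_one] at h2
    have huf : ∀ y, (Aff.lb V t₀).act y = y → y = f := fun y hy => huniq y f hy (hfix0 f hf)
    -- the letter `a`
    have hw : (wA V a b).act f = f := by
      have h2 := hf.pl t₀ ht₀ 2 hk2
      rw [wd_IW] at h2
      have h3 : Aff.wd V (flat [] ++ H.up.str 2 1) = wA V a b := by
        show Aff.wd V (H.up.str (2 * 1) 1) = _
        rw [(wd_str H V 1 1 (map_one eps)).1, pow_one]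
      rw [h3] at h2
      exact fix_conj huf h2
    have ha : (Aff.lb V a).act f = f := by
      have h2 := hf.pl t₀ ht₀ 1 (by have := H.kpos; omega)
      rw [wd_IW] at h2
      have h3 : Aff.wd V (flat [] ++ H.up.str 1 1) = Aff.lb V a := by
        show Aff.wd V (H.up.str (2 * 0 + 1) 1) = _
        rw [(wd_str H V 0 1 (map_one eps)).2, pow_zero, one_mul]
      rw [h3] at h2
      exact fix_conj huf h2
    have hbi : ((Aff.lb V b)⁻¹).act f = f := by
      have h1 : ((Aff.lb V a)⁻¹ * wA V a b).act f = f := fix_mul (Aff.act_inv ha) hw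
      unfold wA at h1
      rwa [inv_mul_cancel_left] at h1
    have hb : (Aff.lb V b).act f = f := Aff.act_inv_iff.1 hbi
    have hall : ∀ l, (Aff.lb V l).act f = f := by
      intro l
      rcases Int.units_eq_one_or (eps (B.q l)) with hl | hl
      · have h2 := hf.pl l hl 0 (Nat.mul_pos Nat.two_pos H.kpos)
        rw [wd_IW] at h2
        have h3 : Aff.wd V (flat [] ++ H.up.str 0 1) = 1 := rfl
        rwa [h3, one_mul, inv_one, mul_one] at h2
      · by_cases hE : EffL B a b eps D z k l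
        · obtain ⟨i, j, f', hf'⟩ := hC l hE
          obtain rfl : f' = f := huf f' (hfix0 f' hf'.inn)
          have h2 := fix_conj huf (hf'.rot t₀ ht₀)
          rw [wd_CW] at h2
          have h3 : Aff.lb V l = (wA V a b ^ i)⁻¹ *
              (wA V a b ^ i * Aff.lb V l * (wA V a b ^ j * Aff.lb V a)⁻¹) * (wA V a b ^ j * Aff.lb V a) := by
            group
          rw [h3]
          exact fix_mul (fix_mul (Aff.act_inv (fix_pow hw i)) h2) (fix_mul (fix_pow hw j) ha)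
        · have hk' : ∀ p : B.L × B.L, Nr1 B a b D p → (Aff.lb V p.1 * (Aff.lb V p.2)⁻¹).act f = f := by
            intro p hp
            have h2 := hf.bl t₀ ht₀ p hp
            rw [wd_IW] at h2
            have h3 : Aff.wd V (flat (p :: List.replicate (k - 1) (a, b)) ++ H.up.str 0 1) =
                Aff.lb V p.1 * (Aff.lb V p.2)⁻¹ * wA V a b ^ (k - 1) := by
              rw [Aff.wd_append, wd_flat_cons, wd_flat_rep]
              show _ * Aff.wd V [] = _
              rw [Aff.wd_nil, mul_one]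
            rw [h3] at h2
            have h4 := fix_conj huf h2
            have h5 : Aff.lb V p.1 * (Aff.lb V p.2)⁻¹ =
                Aff.lb V p.1 * (Aff.lb V p.2)⁻¹ * wA V a b ^ (k - 1) * (wA V a b ^ (k - 1))⁻¹ := by group
            rw [h5]
            exact fix_mul h4 (Aff.act_inv (fix_pow hw _))
          unfold EffL at hE
          have hE' : B.q l * (B.q a)⁻¹ ∈ EI B a b eps D z k ∨ B.q l * (B.q b)⁻¹ ∈ EI B a b eps D z k := by
            by_contra hcon
            push Not at hcon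
            exact hE ⟨hl, hcon.1, hcon.2⟩
          rcases hE' with h1 | h1
          · have h2 := hk' _ (near_of_EI H h1)
            have h3 : Aff.lb V l = Aff.lb V l * (Aff.lb V b)⁻¹ * Aff.lb V b := by group
            rw [h3]
            exact fix_mul h2 hb
          · have h2 := hk' _ (near_of_EI' H h1)
            have h3 : (Aff.lb V l)⁻¹ = (Aff.lb V a)⁻¹ * (Aff.lb V a * (Aff.lb V l)⁻¹) := by group
            have h4 : ((Aff.lb V l)⁻¹).act f = f := by
              rw [h3]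
              exact fix_mul (Aff.act_inv ha) h2
            exact Aff.act_inv_iff.1 h4
    have hn : ∀ l, V.n l = (1 - V.chi (B.q l)) * f := by
      intro l
      have := hall l
      unfold Aff.act at this
      rw [Aff.lb_q, Aff.lb_v] at this
      linear_combination this
    rintro (⟨_, s, t, h⟩ | ⟨t, ht, h1, h2⟩ | ⟨s, _, h⟩)
    · apply h
      unfold Vd.kap
      rw [hn s, hn t]; ring
    · apply h2
      rw [hn t, h1]; ring
    · apply h
      refine kapW_of_com (y := f) ?_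
      rw [fix_mul hw (fix_mul (hall s) (Aff.act_inv ha)), fix_mul (fix_mul (hall s) (Aff.act_inv ha)) hw]
  · push Not at hrot
    rintro (⟨⟨t, ht, h1⟩, _⟩ | ⟨t, ht, h1, h2⟩ | ⟨s, hs, h⟩)
    · exact h1 (hrot t ht)
    · exact h2 (hf.n_zero H ht h1)
    · apply h
      by_cases hE : EffL B a b eps D z k s
      · obtain ⟨i, j, f', hf'⟩ := hC s hE
        have h1 := hf'.com
        rw [wd_CW, wd_CW] at h1
        set σ := Aff.lb V s * (Aff.lb V a)⁻¹ with hσ
        have h2 : wA V a b ^ (i + 1) * Aff.lb V s * (wA V a b ^ (j + 1) * Aff.lb V a)⁻¹ *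
            (wA V a b ^ i * Aff.lb V s * (wA V a b ^ j * Aff.lb V a)⁻¹)⁻¹ =
            wA V a b ^ i * ((wA V a b * σ) * (σ * wA V a b)⁻¹) * (wA V a b ^ i)⁻¹ := by
          rw [hσ, pow_succ, pow_succ]
          group
        rw [h2] at h1
        set y := ((σ * wA V a b)⁻¹ * (wA V a b ^ i)⁻¹).act f' with hy
        refine kapW_of_com (y := y) ?_
        apply Aff.act_inj (wA V a b ^ i)
        rw [← Aff.act_mul, ← Aff.act_mul, hy, ← Aff.act_mul, ← Aff.act_mul]
        have e1 : wA V a b ^ i * (wA V a b * σ) * ((σ * wA V a b)⁻¹ * (wA V a b ^ i)⁻¹) =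
            wA V a b ^ i * ((wA V a b * σ) * (σ * wA V a b)⁻¹) * (wA V a b ^ i)⁻¹ := by group
        have e2 : wA V a b ^ i * (σ * wA V a b) * ((σ * wA V a b)⁻¹ * (wA V a b ^ i)⁻¹) = 1 := by group
        rw [e1, e2, h1, Aff.act_one]
      · unfold EffL at hE
        have hE' : B.q s * (B.q a)⁻¹ ∈ EI B a b eps D z k ∨ B.q s * (B.q b)⁻¹ ∈ EI B a b eps D z k := by
          by_contra hcon
          push Not at hcon
          exact hE ⟨hs, hcon.1, hcon.2⟩
        have hV : ∀ c d : B.L, V.vol 1 (flat [(c, d)]) = V.n c + V.chi (B.q c) * V.n (B.inv d) := by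
          intro c d
          show V.chi 1 * V.n c + (V.chi (1 * B.q c) * V.n (B.inv d) + 0) = _
          rw [map_one, one_mul, one_mul, add_zero]
        rcases hE' with h1 | h1
        · have h2 := EI_chi (V := V) hrot h1
          have h3 := hG (s, b) (near_of_EI H h1) (by
            unfold tp wC
            show V.chi (B.q s * (B.q b)⁻¹ * (B.q a * (B.q b)⁻¹)⁻¹) = 1
            rw [mul_inv_rev, inv_inv, mul_assoc, inv_mul_cancel_left]
            exact h2)
          rw [hV, hV] at h3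
          unfold kapW
          rw [h2]
          have h4 : V.chi (B.q s) = V.chi (B.q a) := by
            rw [map_mul] at h2
            have := Aff.chi_mul_inv (V := V) (B.q a)
            linear_combination V.chi (B.q a) * h2 - V.chi (B.q s) * this
          rw [h4] at h3
          have h5 : V.n s = V.n a := by linear_combination h3
          rw [h5]; ring
        · have h2 := EI_chi (V := V) hrot h1
          have h4 : V.chi (B.q s) = V.chi (B.q b) := by
            rw [map_mul] at h2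
            have := Aff.chi_mul_inv (V := V) (B.q b)
            linear_combination V.chi (B.q b) * h2 - V.chi (B.q s) * this
          have h4' : V.chi (B.q s)⁻¹ = V.chi (B.q b)⁻¹ := by
            have e1 := Aff.chi_mul_inv (V := V) (B.q s)
            have e2 := Aff.chi_mul_inv (V := V) (B.q b)
            rw [h4] at e1
            exact mul_left_cancel₀ (Aff.chi_ne_zero (V := V) (B.q b)) (e1.trans e2.symm)
          have h3 := hG (a, s) (near_of_EI' H h1) (by
            unfold tp wC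
            show V.chi (B.q a * (B.q s)⁻¹ * (B.q a * (B.q b)⁻¹)⁻¹) = 1
            rw [mul_inv_rev, inv_inv, map_mul, map_mul, map_mul, h4']
            have e1 := Aff.chi_mul_inv (V := V) (B.q a)
            have e2 := Aff.chi_mul_inv (V := V) (B.q b)
            linear_combination (V.chi (B.q b) * V.chi (B.q b)⁻¹) * e1 + e2)
          rw [hV, hV, V.n_inv, V.n_inv, h4'] at h3
          have h5 : V.n s = V.n b := by
            have e1 : V.chi (B.q a) * V.chi (B.q b)⁻¹ * (V.n s - V.n b) = 0 := by linear_combination -h3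
            rcases mul_eq_zero.1 e1 with e2 | e2
            · rcases mul_eq_zero.1 e2 with e3 | e3
              · exact absurd e3 (Aff.chi_ne_zero _)
              · exact absurd e3 (Aff.chi_ne_zero _)
            · exact sub_eq_zero.1 e2
          unfold kapW
          rw [h5, map_mul, map_mul, h4]
          have e1 := Aff.chi_mul_inv (V := V) (B.q a)
          have e2 := Aff.chi_mul_inv (V := V) (B.q b)
          linear_combination (-(V.chi (B.q b) * V.chi (B.q b)⁻¹) * V.n a +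
            V.chi (B.q b) * V.chi (B.q b)⁻¹ * V.n b) * e1 + (- V.n a + V.n b) * e2

end alg

/-! ### Potentials -/

section pot

variable {Q : Type} [Group Q] {B : Lb.{0, 0} Q} {a b : B.L} {eps : Q →* ℤˣ} {D : Subgroup Q} {z : Q} {k : ℕ}
  (H : HypC B a b eps D z k) {F : Type} [Field F] {V : Vd B F}

include H in
theorem eps_rf (x : Q) : eps (rfC eps (B.q a) x) = 1 := by
  unfold rfC
  split_ifs with h
  · exact h
  · rw [map_mul, map_inv, H.ea]
    rcases Int.units_eq_one_or (eps x) with h1 | h1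
    · exact absurd h1 h
    · rw [h1]; decide

/-- Distinct strands have distinct reference vertices. -/
theorem rf_inj {S : Type} {g : S → Q} (inj : Function.Injective g) {W : ℕ} (hW : 1 ≤ W) (hD : Dis H g W)
    {v v' : S} (h : rfC eps (B.q a) (g v) = rfC eps (B.q a) (g v')) : v = v' := by
  have key : ∀ v v' : S, eps (g v) = 1 → eps (g v') ≠ 1 → rfC eps (B.q a) (g v) = rfC eps (B.q a) (g v') →
      False := by
    intro v v' h1 h2 h3
    unfold rfC at h3
    rw [if_pos h1, if_neg h2] at h3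
    have h4 : (H.up.U ^ (1 : ℤ)) (g v) = g v' := by
      rw [zpow_one, H31.C_U_one H h1, h3, inv_mul_cancel_right]
    have := hD v v' 1 (by simpa using hW) h4
    exact one_ne_zero this
  by_cases h1 : eps (g v) = 1
  · by_cases h2 : eps (g v') = 1
    · unfold rfC at h
      rw [if_pos h1, if_pos h2] at h
      exact inj h
    · exact absurd h fun h => key v v' h1 h2 h
  · by_cases h2 : eps (g v') = 1
    · exact absurd h fun h => key v' v h2 h1 h.symm
    · unfold rfC at h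
      rw [if_neg h1, if_neg h2] at h
      exact inj (mul_right_cancel h)

theorem vol_act {u u' : F} {ρ : Q} {w : List B.L} (h : eps ρ = 1) (h' : eps (B.fin ρ w) = 1) :
    (evA V eps u u').vol ρ w = V.chi ρ * ((Aff.wd V w).act u - u) := by
  have p1 : ∀ x, eps x = 1 → ptA eps u u' x = u := fun x hx => if_pos hx
  rw [evA_vol, p1 _ h, p1 _ h', Aff.act_wd]

/-- The move `x` from `v` to `v'` is exact. -/
def Ex {S : Type} (_H : HypC B a b eps D z k) (g : S → Q) (u : F) (Φ : S → F) (x : Aff V) (v v' : S) : Prop :=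
  rfC eps (B.q a) (g v') = rfC eps (B.q a) (g v) * x.q ∧
    Φ v' - Φ v = V.chi (rfC eps (B.q a) (g v)) * (x.act u - u)

variable {S : Type} {g : S → Q} {u u' : F} {Φ : S → F}

theorem Ex.mul {x y : Aff V} {v v' v'' : S} (h : Ex H g u Φ x v v') (h' : Ex H g u Φ y v' v'') :
    Ex H g u Φ (x * y) v v'' := by
  obtain ⟨h1, h2⟩ := h
  obtain ⟨h3, h4⟩ := h'
  refine ⟨by rw [h3, h1, Aff.mul_q, mul_assoc], ?_⟩
  rw [h1, map_mul] at h4
  rw [Aff.act_mul]
  have e1 : x.act (y.act u) - u = V.chi x.q * (y.act u - u) + (x.act u - u) := by unfold Aff.act; ring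
  rw [e1]
  linear_combination h2 + h4

theorem Ex.inv {x : Aff V} {v v' : S} (h : Ex H g u Φ x v v') : Ex H g u Φ x⁻¹ v' v := by
  obtain ⟨h1, h2⟩ := h
  refine ⟨by rw [h1, Aff.inv_q, mul_inv_cancel_right], ?_⟩
  rw [h1, map_mul]
  have e1 : x⁻¹.act u - u = - (V.chi x.q⁻¹ * (x.act u - u)) := by
    unfold Aff.act
    rw [Aff.inv_v, Aff.inv_q]
    have := Aff.chi_mul_inv (V := V) x.q
    linear_combination u * this
  rw [e1]
  have := Aff.chi_mul_inv (V := V) x.q
  linear_combination (V.chi (rfC eps (B.q a) (g v)) * (x.act u - u)) * this - h2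

/-- A rung with word `w` is an exact move. -/
theorem Ex.of_word {w : List B.L} {v v' : S} (hf : B.fin (rfC eps (B.q a) (g v)) w = rfC eps (B.q a) (g v'))
    (hΦ : (evA V eps u u').vol (rfC eps (B.q a) (g v)) w = Φ v' - Φ v) : Ex H g u Φ (Aff.wd V w) v v' := by
  refine ⟨by rw [← hf, Aff.fin_wd (V := V)], ?_⟩
  rw [← hΦ, vol_act (eps_rf H _) (by rw [hf]; exact eps_rf H _)]

/-- Exact moves over `D` have a common fixed point. -/
theorem fix_of_ex {A : S → Prop} {v₀ : S} (h₀ : A v₀) (X : Set (Aff V)) (hk : ((k : ℕ) : F) ≠ 0)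
    (rinj : ∀ v v' : S, rfC eps (B.q a) (g v) = rfC eps (B.q a) (g v') → v = v') (hX : ∀ x ∈ X, x.q ∈ D)
    (hE : ∀ v, A v → Sh D (g v₀) (g v) → ∀ x ∈ X, ∃ v', A v' ∧ Sh D (g v₀) (g v') ∧ Ex H g u Φ x v v') :
    ∃ f, ∀ x ∈ X, x.act f = f := by
  classical
  have hf := H.fin
  have hD : ((Nat.card D : ℕ) : F) ≠ 0 := by
    intro h
    apply hk
    obtain ⟨m, hm⟩ := H.card
    rw [hm, Nat.cast_mul, h, zero_mul]
  let β : Q → F := fun ρ => if h : ∃ v, rfC eps (B.q a) (g v) = ρ then Φ h.choose else 0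
  have hβ : ∀ v, β (rfC eps (B.q a) (g v)) = Φ v := by
    intro v
    have h : ∃ v', rfC eps (B.q a) (g v') = rfC eps (B.q a) (g v) := ⟨v, rfl⟩
    show (if h : ∃ v', rfC eps (B.q a) (g v') = rfC eps (B.q a) (g v) then Φ h.choose else 0) = _
    rw [dif_pos h, rinj _ _ h.choose_spec]
  refine Aff.exact_fix D hD X hX {ρ | ∃ v, A v ∧ Sh D (g v₀) (g v) ∧ rfC eps (B.q a) (g v) = ρ} ?_
    ⟨_, v₀, h₀, Sh.refl _, rfl⟩ u β ?_
  · rintro ρ ⟨v, h1, h2, rfl⟩ x hx
    obtain ⟨v', h3, h4, h5⟩ := hE v h1 h2 x hx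
    exact ⟨v', h3, h4, h5.1⟩
  · rintro ρ ⟨v, h1, h2, rfl⟩ x hx
    obtain ⟨v', h3, h4, h5⟩ := hE v h1 h2 x hx
    rw [← h5.1, hβ, hβ, h5.2]

end pot

/-! ### Families -/

section fam

variable {S : Type} [Fintype S] [DecidableEq S] {Q : Type} [Group Q] [DecidableEq Q] {B : Lb.{0, 0} Q} {a b : B.L}
  {eps : Q →* ℤˣ} {D : Subgroup Q} {z : Q} {k : ℕ} {H : HypC B a b eps D z k} {g : S → Q}
  {inj : Function.Injective g} {R : Type} [Fintype R] {X : ClsW H.up g inj (2 * k) R} {Y : S → Prop}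
  {wd : R → List B.L} {In : R → Prop} {h : ℕ} {F : Type} [Field F] {V : Vd B F} {u u' : F} {Φ : S → F}
  {A : S → Prop} {v₀ : S}

/-- `Φ` is a potential of the rungs over `A`. -/
def PotV {S : Type} [Fintype S] [DecidableEq S] {Q : Type} [Group Q] [DecidableEq Q] {B : Lb.{0, 0} Q} {a b : B.L}
    {eps : Q →* ℤˣ} {D : Subgroup Q} {z : Q} {k : ℕ} (H : HypC B a b eps D z k) {g : S → Q}
    {inj : Function.Injective g} {R : Type} [Fintype R] (X : ClsW H.up g inj (2 * k) R) (wd : R → List B.L)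
    {F : Type} [Field F] (V : Vd B F) (u u' : F) (A : S → Prop) (Φ : S → F) : Prop :=
  ∀ r, A (X.x r) → (evA V eps u u').vol (rfC eps (B.q a) (g (X.x r))) (wd r) = Φ (X.y r) - Φ (X.x r)

/-- The inner moves. -/
def XI (H : HypC B a b eps D z k) (V : Vd B F) : Set (Aff V) :=
  {x | (∃ t, eps (B.q t) = 1 ∧ ∃ n < 2 * k, x = Aff.wd V (IW H.up [] n t)) ∨
    ∃ t, eps (B.q t) = 1 ∧ ∃ p, Nr1 B a b D p ∧
      x = Aff.wd V (IW H.up (p :: List.replicate (k - 1) (a, b)) 0 t)}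

theorem XI_mem {x : Aff V} (hx : x ∈ XI H V) : x.q ∈ D := by
  rcases hx with ⟨t, ht, n, _, rfl⟩ | ⟨t, ht, p, _, rfl⟩
  · rw [wd_IW, Aff.mul_q, Aff.mul_q, Aff.inv_q, Aff.lb_q]
    exact H.nD.conj_mem _ (H.near t ht) _
  · rw [wd_IW, Aff.mul_q, Aff.mul_q, Aff.inv_q, Aff.lb_q]
    exact H.nD.conj_mem _ (H.near t ht) _

theorem InnF.of {f : F} (hf : ∀ x ∈ XI H V, x.act f = f) : InnF H V f where
  pl t ht n hn := hf _ (Or.inl ⟨t, ht, n, hn, rfl⟩)
  bl t ht p hp := hf _ (Or.inr ⟨t, ht, p, hp, rfl⟩)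

theorem inner_ex (hB : FamB H g inj X Y wd In h) (hA : ∀ r, A (X.x r) ↔ A (X.y r))
    (hP : PotV H X wd V u u' A Φ) {r : R} (hr : In r) (hx : A (X.x r)) :
    A (X.y r) ∧ Sh D (g (X.x r)) (g (X.y r)) ∧ Y (X.y r) ∧ Ex H g u Φ (Aff.wd V (wd r)) (X.x r) (X.y r) :=
  ⟨(hA r).1 hx, (hB.inner r hr).1, hB.yY r, Ex.of_word H (u' := u') (hB.fin r) (hP r hx)⟩

theorem inner_XI (hB : FamB H g inj X Y wd In h) (hA : ∀ r, A (X.x r) ↔ A (X.y r))
    (hP : PotV H X wd V u u' A Φ) {v : S} (hv : A v) (hY : Y v) {x : Aff V} (hx : x ∈ XI H V) :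
    ∃ v', A v' ∧ Sh D (g v) (g v') ∧ Y v' ∧ Ex H g u Φ x v v' := by
  rcases hx with ⟨t, ht, n, hn, rfl⟩ | ⟨t, ht, p, hp, rfl⟩
  · obtain ⟨r, hr, rfl, h3⟩ := hB.inn0 v hY t ht n hn
    rw [← h3]
    exact ⟨_, inner_ex hB hA hP hr hv⟩
  · obtain ⟨r, hr, rfl, h3⟩ := hB.innL v hY t ht p hp
    rw [← h3]
    exact ⟨_, inner_ex hB hA hP hr hv⟩

/-- A potential on a component of a family gives a fixed point of the inner moves. -/
theorem famB_fix (hB : FamB H g inj X Y wd In h) (hk : ((k : ℕ) : F) ≠ 0) {W : ℕ} (hW : 1 ≤ W) (hDis : Dis H g W)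
    (hA : ∀ r, A (X.x r) ↔ A (X.y r)) (h₀ : A v₀) (hY : ∀ v, Sh D (g v₀) (g v) → Y v)
    (hP : PotV H X wd V u u' A Φ) : ∃ f, InnF H V f := by
  obtain ⟨f, hf⟩ := fix_of_ex (V := V) (u := u) (Φ := Φ) H h₀ (XI H V) hk (fun v v' hv => rf_inj H inj hW hDis hv)
    (fun x hx => XI_mem hx) (by
      intro v hv hs x hx
      obtain ⟨v', h1, h2, _, h4⟩ := inner_XI hB hA hP hv (hY v hs) hx
      exact ⟨v', h1, hs.trans h2, h4⟩)
  exact ⟨f, InnF.of hf⟩

/-- The strand of a translate. -/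
theorem shd (H : HypC B a b eps D z k) (hD : DCl D g) (v : S) {δ : Q} (hδ : δ ∈ D) :
    ∃ v', rfC eps (B.q a) (g v') = rfC eps (B.q a) (g v) * δ ∧ Sh D (g v) (g v') := by
  have h1 : eps δ = 1 := H.leD hδ
  unfold rfC
  by_cases hv : eps (g v) = 1
  · obtain ⟨v', h2⟩ := hD v δ hδ
    refine ⟨v', ?_, ?_⟩
    · rw [h2, if_pos (by rw [map_mul, hv, h1, one_mul]), if_pos hv]
    · rw [h2]; exact Sh.mul_mem _ hδ
  · have h3 : (B.q a)⁻¹ * δ * B.q a ∈ D := by
      have := H.nD.conj_mem _ hδ (B.q a)⁻¹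
      rwa [inv_inv] at this
    obtain ⟨v', h2⟩ := hD v _ h3
    refine ⟨v', ?_, ?_⟩
    · have h4 : eps (g v * ((B.q a)⁻¹ * δ * B.q a)) = eps (g v) := by
        rw [map_mul, (show eps ((B.q a)⁻¹ * δ * B.q a) = 1 from H.leD h3), mul_one]
      rw [h2, if_neg (by rw [h4]; exact hv), if_neg hv]
      group
    · rw [h2]; exact Sh.mul_mem _ h3

/-- The plain cross rungs. -/
theorem cross_end {s : B.L} {n : ℤ} {M : Set Q} {Y₀ Y₁ : S → Prop} (hX : FamX H g inj X s n M Y₀ Y₁ wd In h)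
    (hA : ∀ r, A (X.x r) ↔ A (X.y r)) (hP : PotV H X wd V u u' A Φ) {i j : ℕ}
    (hij : ∀ v, Y₀ v → ∀ e < 2, ∃ r, ¬ In r ∧
      ((X.x r = v ∧ wd r = CW H.up (i + e) (j + e) s) ∨ (X.y r = v ∧ wd r = B.rev (CW H.up (i + e) (j + e) s))))
    {v : S} (hv : Y₀ v) {e : ℕ} (he : e < 2) :
    ∃ v', (Y₀ v' ∨ Y₁ v') ∧ (A v ↔ A v') ∧
      rfC eps (B.q a) (g v') = rfC eps (B.q a) (g v) * (Aff.wd V (CW H.up (i + e) (j + e) s)).q ∧
      (A v → Ex H g u Φ (Aff.wd V (CW H.up (i + e) (j + e) s)) v v') := by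
  obtain ⟨r, _, ⟨rfl, h2⟩ | ⟨rfl, h2⟩⟩ := hij v hv e he
  · have hf := hX.fin r
    rw [h2] at hf
    refine ⟨X.y r, hX.yY r, hA r, by rw [← hf, Aff.fin_wd (V := V)], fun h3 => ?_⟩
    refine Ex.of_word H (u' := u') hf ?_
    rw [← h2]
    exact hP r h3
  · have hf := hX.fin r
    rw [h2] at hf
    refine ⟨X.x r, hX.xY r, (hA r).symm, ?_, fun h3 => ?_⟩
    · rw [← hf, Aff.fin_wd (V := V), wd_rev, Aff.inv_q, inv_mul_cancel_right]
    · have h4 : Ex H g u Φ (Aff.wd V (B.rev (CW H.up (i + e) (j + e) s))) (X.x r) (X.y r) := by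
        refine Ex.of_word H (u' := u') hf ?_
        rw [← h2]
        exact hP r ((hA r).2 h3)
      have h5 := h4.inv H
      rwa [wd_rev, inv_inv] at h5

/-- A potential on a component of a family with cross rungs gives a fixed point of the moves and of the loops. -/
theorem famX_fix {s : B.L} {n : ℤ} {M : Set Q} {Y₁ : S → Prop}
    (hX : FamX H g inj X s n M (fun v => Sh D (g v₀) (g v)) Y₁ wd In h) (hs : eps (B.q s) = -1)
    (hk : ((k : ℕ) : F) ≠ 0) {W : ℕ} (hW : 1 ≤ W) (hDis : Dis H g W) (hD : DCl D g)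
    (hA : ∀ r, A (X.x r) ↔ A (X.y r)) (h₀ : A v₀) (hP : PotV H X wd V u u' A Φ) :
    ∃ i j f, CrsF H V s i j f := by
  obtain ⟨i, j, _, hij⟩ := hX.crs0
  have rinj : ∀ v v' : S, rfC eps (B.q a) (g v) = rfC eps (B.q a) (g v') → v = v' :=
    fun v v' hv => rf_inj H inj hW hDis hv
  have hcr := @cross_end S _ _ Q _ _ B a b eps D z k H g inj R _ X wd In h F _ V u u' Φ A s n M _ Y₁ hX hA hP i j hij
  set x₀ := Aff.wd V (CW H.up i j s) with hx₀
  set x₁ := Aff.wd V (CW H.up (i + 1) (j + 1) s) with hx₁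
  -- back through the plain cross rungs
  have hback : ∀ v v₁ : S, A v₁ → Sh D (g v₀) (g v) → ∀ δ ∈ D,
      rfC eps (B.q a) (g v₁) = rfC eps (B.q a) (g v) * δ * x₀.q →
      ∃ v₂, A v₂ ∧ Sh D (g v₀) (g v₂) ∧ Ex H g u Φ x₀⁻¹ v₁ v₂ := by
    intro v v₁ hv₁ hv δ hδ he
    obtain ⟨v₂, h1, h2⟩ := shd H hD v hδ
    obtain ⟨v₃, _, h4, h5, h6⟩ := hcr (hv.trans h2) (e := 0) Nat.two_pos
    rw [Nat.add_zero, Nat.add_zero, ← hx₀] at h5 h6
    obtain rfl : v₃ = v₁ := rinj _ _ (by rw [h5, h1, he])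
    exact ⟨v₂, h4.2 hv₁, hv.trans h2, (h6 (h4.2 hv₁)).inv H⟩
  have hcom : (x₁ * x₀⁻¹).q ∈ D := by
    rw [Aff.mul_q, Aff.inv_q, hx₀, hx₁, wd_CW, wd_CW]
    have e1 : (wA V a b ^ (i + 1) * Aff.lb V s * (wA V a b ^ (j + 1) * Aff.lb V a)⁻¹).q *
        ((wA V a b ^ i * Aff.lb V s * (wA V a b ^ j * Aff.lb V a)⁻¹).q)⁻¹ =
        (wA V a b ^ i * (wA V a b * (Aff.lb V s * (Aff.lb V a)⁻¹) * (wA V a b)⁻¹ *
          (Aff.lb V s * (Aff.lb V a)⁻¹)⁻¹) * (wA V a b ^ i)⁻¹).q := by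
      rw [← Aff.inv_q, ← Aff.mul_q]
      congr 1
      rw [pow_succ, pow_succ]
      group
    rw [e1]
    rw [Aff.mul_q, Aff.mul_q, Aff.inv_q]
    refine H.nD.conj_mem _ ?_ _
    show B.q a * (B.q b)⁻¹ * (B.q s * (B.q a)⁻¹) * (B.q a * (B.q b)⁻¹)⁻¹ * (B.q s * (B.q a)⁻¹)⁻¹ ∈ D
    set σ := B.q s * (B.q a)⁻¹ with hσ
    set w := B.q a * (B.q b)⁻¹ with hw
    have hσ1 : eps σ = 1 := by rw [hσ, map_mul, map_inv, hs, H.ea]; decide
    have hcz : σ * z = z * σ := H.cen _ hσ1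
    have hd : z⁻¹ * w ∈ D := H.mem
    have e2 : w * σ * w⁻¹ * σ⁻¹ = z * ((z⁻¹ * w) * (σ * (z⁻¹ * w)⁻¹ * σ⁻¹)) * z⁻¹ := by
      have e3 : σ⁻¹ * z⁻¹ = z⁻¹ * σ⁻¹ := by rw [← mul_inv_rev, ← mul_inv_rev, hcz]
      calc w * σ * w⁻¹ * σ⁻¹ = w * σ * w⁻¹ * (z * (z⁻¹ * σ⁻¹)) := by group
        _ = w * σ * w⁻¹ * (z * (σ⁻¹ * z⁻¹)) := by rw [e3]
        _ = z * ((z⁻¹ * w) * (σ * (z⁻¹ * w)⁻¹ * σ⁻¹)) * z⁻¹ := by group
    rw [e2]
    exact H.nD.conj_mem _ (D.mul_mem hd (H.nD.conj_mem _ (D.inv_mem hd) _)) _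
  have hrotD : ∀ t, eps (B.q t) = 1 → (x₀ * Aff.lb V t * x₀⁻¹).q ∈ D := by
    intro t ht
    rw [Aff.mul_q, Aff.mul_q, Aff.inv_q, Aff.lb_q]
    exact H.nD.conj_mem _ (H.near t ht) _
  obtain ⟨f, hf⟩ := fix_of_ex (V := V) (u := u) (Φ := Φ) H h₀
    (XI H V ∪ ({x | ∃ t, eps (B.q t) = 1 ∧ x = x₀ * Aff.lb V t * x₀⁻¹} ∪ {x₁ * x₀⁻¹})) hk rinj (by
      rintro x (hx | ⟨t, ht, rfl⟩ | rfl)
      · exact XI_mem hx
      · exact hrotD t ht
      · exact hcom) (by
      rintro v hv hs' x (hx | ⟨t, ht, rfl⟩ | rfl)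
      · obtain ⟨v', h1, h2, _, h4⟩ := inner_XI hX.toFamB hA hP hv (Or.inl hs') hx
        exact ⟨v', h1, hs'.trans h2, h4⟩
      · obtain ⟨v₁, h1, h2, h3, h4⟩ := hcr hs' (e := 0) Nat.two_pos
        rw [Nat.add_zero, Nat.add_zero, ← hx₀] at h3 h4
        have ht' : Aff.lb V t ∈ XI H V := by
          refine Or.inl ⟨t, ht, 0, Nat.mul_pos Nat.two_pos H.kpos, ?_⟩
          rw [wd_IW]
          have h5 : Aff.wd V (flat [] ++ H.up.str 0 1) = 1 := rfl
          rw [h5, one_mul, inv_one, mul_one]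
        obtain ⟨v₂, h5, h6, _, h7⟩ := inner_XI hX.toFamB hA hP (h2.1 hv) h1 ht'
        obtain ⟨v₃, h8, h9, h10⟩ := hback v v₂ h5 hs' _ (hrotD t ht) (by
          rw [h7.1, (h4 hv).1, Aff.mul_q, Aff.mul_q, Aff.inv_q]
          group)
        exact ⟨v₃, h8, h9, ((h4 hv).mul H h7).mul H h10⟩
      · obtain ⟨v₁, h1, h2, h3, h4⟩ := hcr hs' (e := 1) Nat.one_lt_two
        rw [← hx₁] at h3 h4
        obtain ⟨v₃, h8, h9, h10⟩ := hback v v₁ (h2.1 hv) hs' _ hcom (by
          rw [h3, Aff.mul_q, Aff.inv_q]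
          group)
        exact ⟨v₃, h8, h9, (h4 hv).mul H h10⟩)
  exact ⟨i, j, f, InnF.of fun x hx => hf x (Or.inl hx), fun t ht => hf _ (Or.inr (Or.inl ⟨t, ht, rfl⟩)),
    hf _ (Or.inr (Or.inr rfl))⟩

end fam

end Pool.Agent.Lib.MP_688fd0_co.SQ4.CV
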