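import Pool.Agent.Lib.MP_688fd0_co.SQ4.IfaceV
import Pool.Agent.Lib.MP_688fd0_co.SQ4.E.AlgV

/-!
FLIPA and FLIPB for the puzzle of a path: without flips there is a potential on the components (all plain vertical edges
have the same volume), and `chi` is constant on the components (`a b⁻¹` is a translation).
-/

set_option autoImplicit false

namespace Pool.Agent.Lib.MP_688fd0_co.SQ4.CV

open Pool.Agent.Lib.MP_688fd0_co.OSF Pool.Agent.Lib.MP_688fd0_co.SQ2 Pool.Agent.Lib.MP_688fd0_co.SQ3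
open Pool.Agent.Lib.MP_688fd0_co.SQ4
open SQ2.V (Puz Sub)
open SQ2.V.Puz (St)
open SQ3.Real
open SQ3.V (Back flipAK flipBK)

section pth

variable {Q : Type} [Group Q] [DecidableEq Q] {B : Lb.{0, 0} Q} {a b : B.L}
  {eps : Q →* ℤˣ} {D : Subgroup Q} {z : Q} {k : ℕ} {H : HypC B a b eps D z k} {F : Finset Q} {T : Pth H F}
  {x s₁ s₂ : Q} {r h : ℕ}

/-- The components of the families `J`. -/
def Pth.Cmp (T : Pth H F) (J : T.C → Prop) (A : {v // v ∈ F} → Prop) : Prop :=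
  ∀ c, J c → ∀ r, A ((T.X c).x r) ↔ A ((T.X c).y r)

theorem Pth.IsComp.cmp {J : T.C → Prop} {v₀ : {v // v ∈ F}} {A : {v // v ∈ F} → Prop} (h : T.IsComp J v₀ A) :
    T.Cmp J A := by
  intro c hc r
  rw [h, h]
  constructor
  · intro h1
    exact h1.tail ⟨c, hc, r, Or.inl ⟨rfl, rfl⟩⟩
  · intro h1
    exact h1.tail ⟨c, hc, r, Or.inr ⟨rfl, rfl⟩⟩

theorem Pth.clo (hT : T.Ok x s₁ s₂ r h) {J : T.C → Prop} {A : {v // v ∈ F} → Prop} (hA : T.Cmp J A) :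
    T.fw.Clo A (T.rg J A) :=
  FamW.ofCls_clo _ _ _ fun c hc => (hT.fam c).clo A (hA c hc)

theorem Pth.Ok.hle (hT : T.Ok x s₁ s₂ r h) (q : Σ c, T.Rc c) : T.fw.real.H q ≤ h := (hT.fam q.1).hle q.2

theorem Pth.Ok.back (hT : T.Ok x s₁ s₂ r h) : Back T.fw.puz T.f T.g T.l₀ :=
  Back.of_ret hT.ret hT.kg hT.adj

/-- The base window. -/
theorem Pth.Ok.base (hT : T.Ok x s₁ s₂ r h) : ∃ (E : TW B) (n : ℕ), EWr T.fw.real T.f T.g T.l₀ E n ∧
    n ≤ (NW {v // v ∈ F} (Σ c, T.Rc c) + 2) * (2 * k + h) :=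
  real0 _ _ T.fw.puz Q B H.up T.fw.real (z ^ k) T.f T.g T.l₀ h (perC H) hT.hle hT.adj hT.back.stb

theorem frS_val (n : ℕ) : frS H.up (fun v : {v // v ∈ F} => (v : Q)) Subtype.val_injective n = im (H.up.U ^ n) F := by
  ext y
  rw [mem_frS, mem_im]
  constructor
  · rintro ⟨s, rfl⟩
    simpa using s.2
  · intro h
    exact ⟨⟨_, h⟩, by simp⟩

theorem Pth.Ok.fwin (hT : T.Ok x s₁ s₂ r h) {X : TW B} {n : ℕ} (hE : EWr T.fw.real T.f T.g T.l₀ X n) :
    FWin H.up (2 * k) F T.t₀ x s₁ s₂ X n where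
  L₀ := hE.L₀.trans (frS_val _)
  u₁ := by rw [hE.u₁, ← hT.hx]; rfl
  u₀ := by rw [hE.u₀, ← hT.h₁]; rfl
  flat := by
    have h1 := hE.flat
    have h2 : T.fw.real.vt (T.fw.puz.oth T.g T.l₀) (T.fw.real.lev T.f) = (H.up.U ^ T.t₀) s₂ := by
      rw [← hT.h₂]; rfl
    rwa [h2] at h1
  dvd := hE.dvd

theorem Pth.Ok.bnd (hT : T.Ok x s₁ s₂ r h) {n n₀ : ℕ}
    (h₀ : n₀ ≤ (NW {v // v ∈ F} (Σ c, T.Rc c) + 2) * (2 * k + h))
    (hn : n ≤ n₀ + (2 * NW {v // v ∈ F} (Σ c, T.Rc c) + 4) * (2 * k + h)) : n ≤ lamV F.card r k h := by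
  have h1 : Nat.card {v // v ∈ F} = F.card := by rw [Nat.card_eq_fintype_card, Fintype.card_coe]
  have h2 : Nat.card (Σ c, T.Rc c) ≤ r := by rw [Nat.card_eq_fintype_card]; exact hT.card
  have h3 : NW {v // v ∈ F} (Σ c, T.Rc c) ≤ 2 * (r * F.card ^ F.card) + 2 := by
    unfold NW
    rw [h1]
    have := Nat.mul_le_mul_right (F.card ^ F.card) h2
    omega
  have h4 : r * F.card ^ F.card + 1 ≤ (r + 1) * (F.card + 1) ^ F.card := by
    have h5 : F.card ^ F.card ≤ (F.card + 1) ^ F.card := Nat.pow_le_pow_left (Nat.le_succ _) _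
    have h6 := Nat.mul_le_mul_left r h5
    have h7 : 0 < (F.card + 1) ^ F.card := Nat.pow_pos (Nat.succ_pos _)
    rw [Nat.add_mul, one_mul]
    omega
  have h5 : n ≤ (3 * NW {v // v ∈ F} (Σ c, T.Rc c) + 6) * (2 * k + h) := by
    refine hn.trans ?_
    have e1 : (3 * NW {v // v ∈ F} (Σ c, T.Rc c) + 6) * (2 * k + h) =
        (NW {v // v ∈ F} (Σ c, T.Rc c) + 2) * (2 * k + h) +
          (2 * NW {v // v ∈ F} (Σ c, T.Rc c) + 4) * (2 * k + h) := by ring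
    rw [e1]
    exact Nat.add_le_add_right h₀ _
  refine h5.trans ?_
  unfold lamV
  have h6 : 3 * NW {v // v ∈ F} (Σ c, T.Rc c) + 6 ≤ 6 * ((r + 1) * (F.card + 1) ^ F.card + 1) := by omega
  have h7 := Nat.mul_le_mul_right (2 * k + h) h6
  exact h7.trans (Nat.le_add_right _ _)

open Classical in
/-- FLIPA: without flips there is a potential on every component with a start. -/
theorem Pth.potA (hT : T.Ok x s₁ s₂ r h) {J : T.C → Prop} {A : {v // v ∈ F} → Prop} (hA : T.Cmp J A)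
    {Kc : {q // T.rg J A q} → Prop} (hK : (T.clo hT hA).puz.HypK Kc) {K : Type} [Field K]
    (hδ : (T.clo hT hA).puz.Wt K) (hf : ((Nat.card {v // A v}).factorial : K) ≠ 0) (h2 : (2 : K) ≠ 0) (V : Vd B K)
    (u u' o : K) (hz : V.chi z = 1) (ho : ∀ y, (evA V eps u u').e y (H.up.up y) = o) (hG : GoodL a b D V)
    (w : Q → K) (hw : ∀ s ∈ F, w ((H.up.U ^ T.t₀) s) = w s)
    (hS : Strt T.P T.f A (fun q => ∃ hq : T.rg J A q, Kc ⟨q, hq⟩) fun s => w s) {Λ : ℕ}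
    (hΛ : lamV F.card r k h ≤ Λ) (hN : NoFl H F T.t₀ x s₁ s₂ Λ V w) :
    ∃ Φ : {v // v ∈ F} → K, ∀ c, J c → PotV H (T.X c) (T.wd c) V u u' A Φ := by
  set E := (T.clo hT hA).sub with hE
  set V' := evA V eps u u' with hV'
  have hinv : V'.Inv (z ^ k) := evA_inv V eps u u' (by rw [map_pow, hz, one_pow])
    (by rw [map_pow, H31.C_eps_z H, one_pow])
  set cu : (Σ c, T.Rc c) → K := fun q => V'.vol (rfC eps (B.q a) ((T.X q.1).x q.2)) (T.wd q.1 q.2) +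
    o * ((eeC eps (((T.X q.1).y q.2 : {v // v ∈ F}) : Q) : K) -
      (eeC eps (((T.X q.1).x q.2 : {v // v ∈ F}) : Q) : K)) with hcu
  have hvol := fun c => (hT.fam c).vol V u u' o hz ho hG
  have hv := T.fw.vols V' hinv
  have e1 : (fun q : Σ c, T.Rc c => V'.vol ((H.up.U ^ T.fw.lev q) (T.fw.g (T.fw.x q))) (T.fw.W q).cup) = cu := by
    funext q
    exact (hvol q.1).1.cup q.2
  have e2 : (fun q : Σ c, T.Rc c => V'.vol (T.fw.W q).w₀ (T.fw.W q).cap) = fun q => cu (T.fw.puz.tau q) := by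
    funext q
    exact (hvol q.1).1.cap q.2
  rw [e1, e2] at hv
  set θ : (Σ c, T.Rc c) → {v // v ∈ F} → K := fun q s =>
    V'.vol ((H.up.U ^ T.fw.lev q) (T.fw.g s)) ((T.fw.W q).path ((H.up.U ^ T.fw.lev q) (T.fw.g s))) with hθ
  obtain ⟨s, hs, ⟨hq, hKq⟩, hi, hg, hd⟩ := hS
  by_contra hcon
  have hflip : T.fw.puz.Flip cu (fun q L => θ q L - (T.fw.real.H q : K) * o) (fun s => w (T.fw.real.g s))
      T.f T.g T.l₀ := by
    have hfin : Fintype {q // T.rg J A q} := Fintype.ofFinite _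
    refine flipAK _ _ _ _ K T.fw.puz (T.clo hT hA).puz E Kc cu _ (fun s : {v // v ∈ F} => w s) T.f T.g T.l₀ s
      ⟨s.1, hq⟩ hT.back ?_ hs rfl hi hg ?_ hK hKq ?_ h2 ?_ ?_
    · rintro ⟨⟨c, q⟩, hq1, hq2⟩ s' hs'
      have h3 : ¬ A s' := fun h4 => hs' (((T.clo hT hA).range s').2 h4)
      show θ ⟨c, q⟩ s' - ((T.X c).H q : K) * o = 0
      rw [sub_eq_zero]
      exact (hvol c).2 A (hA c hq1) q hq2 s' h3
    · have h3 := hd inferInstance
      intro h4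
      apply h3
      refine Eq.trans ?_ h4
      refine Finset.sum_congr rfl fun t _ => ?_
      by_cases h5 : A (s.2 t)
      · rw [if_pos h5, if_pos (((T.clo hT hA).range _).2 h5)]
      · rw [if_neg h5, if_neg fun h6 => h5 (((T.clo hT hA).range _).1 h6)]
    · rw [← Nat.card_eq_fintype_card]
      exact hf
    · obtain ⟨wt, δ, h3, h4⟩ := hδ
      refine ⟨wt, δ, h3, fun L => ?_⟩
      rw [← h4 L]
      refine Finset.sum_congr ?_ fun _ _ => rfl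
      ext q
      simp
    · rintro ⟨β, hβ⟩
      apply hcon
      refine ⟨fun v => (if hv : A v then β ⟨v, hv⟩ else 0) - o * (eeC eps (v : Q) : K), fun c hc q hq => ?_⟩
      have h3 := hβ ⟨⟨c, q⟩, hc, hq⟩
      have h4 : A ((T.X c).y q) := (hA c hc q).1 hq
      beta_reduce
      rw [dif_pos hq, dif_pos h4]
      have h5 : (T.clo hT hA).puz.x ⟨⟨c, q⟩, hc, hq⟩ = ⟨(T.X c).x q, hq⟩ := rfl
      have h6 : (T.clo hT hA).puz.y ⟨⟨c, q⟩, hc, hq⟩ = ⟨(T.X c).y q, h4⟩ := rfl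
      rw [h5, h6] at h3
      have h7 : cu (E.iR ⟨⟨c, q⟩, hc, hq⟩) = V'.vol (rfC eps (B.q a) ((T.X c).x q)) (T.wd c q) +
        o * ((eeC eps (((T.X c).y q : {v // v ∈ F}) : Q) : K) -
          (eeC eps (((T.X c).x q : {v // v ∈ F}) : Q) : K)) := rfl
      rw [h7] at h3
      linear_combination h3
  obtain ⟨E₀, n₀, hE₀, hn₀⟩ := hT.base
  obtain ⟨X, X', n, hver, hEW, _, hn, hdv⟩ := realACw w o (perC H).1 hT.hle hT.adj hT.back hv ho (fun _ => rfl)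
    (fun s => hw s s.2) hE₀ hflip
  apply hdv
  rw [dvolE_evA V eps u u' w hver]
  refine hN X X' n ((hT.bnd hn₀ hn).trans hΛ) (hT.fwin hEW) ?_
  have h3 : T.fw.real.vt (T.fw.puz.oth T.g T.l₀) (T.fw.real.lev T.f) = (H.up.U ^ T.t₀) s₂ := by
    rw [← hT.h₂]; rfl
  rwa [h3] at hver

open Classical in
/-- FLIPB: without flips `chi` is constant on every component with a start (`a b⁻¹` is a translation `≠ 0`). -/
theorem Pth.potB (hT : T.Ok x s₁ s₂ r h) {J : T.C → Prop} {A : {v // v ∈ F} → Prop} (hA : T.Cmp J A)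
    {Kc : {q // T.rg J A q} → Prop} (hK : (T.clo hT hA).puz.HypK Kc) {K : Type} [Field K]
    (hδ : (T.clo hT hA).puz.Wt K) (hf : ((Nat.card {v // A v}).factorial : K) ≠ 0) (h2 : (2 : K) ≠ 0)
    (hk : ((k : ℕ) : K) ≠ 0) (V : Vd B K) (hz : V.chi z = 1) (hchi : V.chi (B.q a * (B.q b)⁻¹) = 1)
    (hnu : nuW V a b ≠ 0) (w : Q → K) (hw : ∀ s ∈ F, w ((H.up.U ^ T.t₀) s) = w s)
    (hS : Strt T.P T.f A (fun q => ∃ hq : T.rg J A q, Kc ⟨q, hq⟩) fun s => w s) {Λ : ℕ}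
    (hΛ : lamV F.card r k h ≤ Λ) (hN : NoFl H F T.t₀ x s₁ s₂ Λ V w) :
    ∀ c, J c → ∀ q, A ((T.X c).x q) →
      V.chi (rfC eps (B.q a) ((T.X c).x q)) = V.chi (rfC eps (B.q a) ((T.X c).y q)) := by
  obtain ⟨u', hu1, hu2, hu3⟩ := exists_drift V H.ea H.eb 0 hchi h2
  set E := (T.clo hT hA).sub with hE
  set V' := evA V eps 0 u' with hV'
  have hinv : V'.Inv (z ^ k) := evA_inv V eps 0 u' (by rw [map_pow, hz, one_pow])
    (by rw [map_pow, H31.C_eps_z H, one_pow])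
  have hv := T.fw.vols V' hinv
  have hwt : ∀ y : Q, V'.wt H.up y = V.chi (rfC eps (B.q a) y) * (nuW V a b / 2) := by
    intro y
    unfold rfC
    rcases Int.units_eq_one_or (eps y) with h3 | h3
    · rw [if_pos h3]; exact hu1 y h3
    · rw [if_neg (by rw [h3]; decide)]; exact hu2 y h3
  obtain ⟨s, hs, ⟨hq, hKq⟩, hi, hg, hd⟩ := hS
  by_contra hcon
  push Not at hcon
  obtain ⟨c, hc, q, hq', hne⟩ := hcon
  have hfin : Fintype {q // T.rg J A q} := Fintype.ofFinite _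
  have hflip := flipBK _ _ _ _ K T.fw.puz (T.clo hT hA).puz E Kc (fun s => V'.wt H.up (T.fw.real.g s))
    (fun s : {v // v ∈ F} => w s) T.f s ⟨s.1, hq⟩ hs rfl hi hg (by
      have h3 := hd inferInstance
      intro h4
      apply h3
      refine Eq.trans ?_ h4
      refine Finset.sum_congr rfl fun t _ => ?_
      by_cases h5 : A (s.2 t)
      · rw [if_pos h5, if_pos (((T.clo hT hA).range _).2 h5)]
      · rw [if_neg h5, if_neg fun h6 => h5 (((T.clo hT hA).range _).1 h6)]) hK hKq (by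
      rw [← Nat.card_eq_fintype_card]
      exact hf) h2 (by
      obtain ⟨wt, δ, h3, h4⟩ := hδ
      refine ⟨wt, δ, h3, fun L => ?_⟩
      rw [← h4 L]
      refine Finset.sum_congr ?_ fun _ _ => rfl
      ext q
      simp) ⟨⟨⟨c, q⟩, hc, hq'⟩, by
      show V'.wt H.up ((T.X c).x q : {v // v ∈ F}) ≠ V'.wt H.up ((T.X c).y q : {v // v ∈ F})
      rw [hwt, hwt]
      intro h3
      exact hne (mul_right_cancel₀ (div_ne_zero hnu h2) h3)⟩
    (T.fw.puz.gam (fun s => V'.wt H.up (T.fw.real.g s)) (fun t : T.fw.puz.TokOf T.f => w (T.fw.real.g t.1))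
      (T.fw.puz.stb T.f T.g T.l₀) T.f T.l₀)
  obtain ⟨E₀, n₀, hE₀, hn₀⟩ := hT.base
  have he : ((T.fw.real.e : ℕ) : K) ≠ 0 := by
    show ((2 * k : ℕ) : K) ≠ 0
    push_cast
    exact mul_ne_zero h2 hk
  obtain ⟨X, X', n, hver, hEW, _, hn, hdv⟩ := realBEKw w (perC H).1 hT.hle hT.adj hT.back hv hu3 he
    (fun s => hw s s.2) hE₀ hflip
  apply hdv
  rw [dvolE_evA V eps 0 u' w hver]
  refine hN X X' n ((hT.bnd hn₀ hn).trans hΛ) (hT.fwin hEW) ?_
  have h3 : T.fw.real.vt (T.fw.puz.oth T.g T.l₀) (T.fw.real.lev T.f) = (H.up.U ^ T.t₀) s₂ := by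
    rw [← hT.h₂]; rfl
  rwa [h3] at hver

end pth

end Pool.Agent.Lib.MP_688fd0_co.SQ4.CV
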