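import Pool.Agent.Lib.MP_688fd0_co.SQ4.IfaceV2
import Pool.Agent.Lib.MP_688fd0_co.SQ4.E.FlipP

/-!
Rows FLIPA, FLIPB, WIN of `IfaceV2`.
-/

set_option autoImplicit false

namespace Pool.Agent.Lib.MP_688fd0_co.SQ4.CV

open Pool.Agent.Lib.MP_688fd0_co.OSF Pool.Agent.Lib.MP_688fd0_co.SQ2 Pool.Agent.Lib.MP_688fd0_co.SQ3
open Pool.Agent.Lib.MP_688fd0_co.SQ4
open SQ2.V (Puz Sub)
open SQ2.V.Puz (St)
open SQ3.Real
open SQ3.V (Back flipAK flipBK)

theorem two_ne {p k : ℕ} (_ : p.Prime) (hk : 0 < k) (h : 4 * k < p) : (2 : ZMod p) ≠ 0 := by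
  intro h2
  have h3 : ((2 : ℕ) : ZMod p) = 0 := by exact_mod_cast h2
  rw [ZMod.natCast_eq_zero_iff] at h3
  have := Nat.le_of_dvd Nat.two_pos h3
  omega

theorem nat_ne {p k n : ℕ} (hn : 0 < n) (h4 : n ≤ 4 * k) (h : 4 * k < p) : ((n : ℕ) : ZMod p) ≠ 0 := by
  rw [Ne, ZMod.natCast_eq_zero_iff]
  intro h3
  have := Nat.le_of_dvd hn h3
  omega

theorem fact_ne {p k n : ℕ} (hp : p.Prime) (h4 : n ≤ 4 * k) (h : 4 * k < p) :
    ((n.factorial : ℕ) : ZMod p) ≠ 0 := by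
  rw [Ne, ZMod.natCast_eq_zero_iff, hp.dvd_factorial]
  omega

section

variable {Q : Type} [Group Q] [DecidableEq Q] {B : Lb.{0, 0} Q} {a b : B.L}
  {eps : Q →* ℤˣ} {D : Subgroup Q} {z : Q} {k : ℕ} {H : HypC B a b eps D z k} {F : Finset Q} {T : Pth H F}
  {x s₁ s₂ : Q} {r h W Λ p : ℕ} {V : Vd B (ZMod p)} {w : Q → ZMod p}

/-- Versions with different volumes contradict `NoFl`. -/
theorem Cx.no (hC : Cx T x s₁ s₂ r h W Λ V w) {u u' : ZMod p} {E₀ : TW B} {n₀ : ℕ}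
    (hn₀ : n₀ ≤ (NW {v // v ∈ F} (Σ c, T.Rc c) + 2) * (2 * k + h)) {X X' : TW B} {n : ℕ}
    (hver : Ver H.up X X' n (T.fw.real.vt (T.fw.puz.oth T.g T.l₀) (T.fw.real.lev T.f)))
    (hEW : EWr T.fw.real T.f T.g T.l₀ X n)
    (hn : n ≤ n₀ + (2 * NW {v // v ∈ F} (Σ c, T.Rc c) + 4) * (2 * k + h))
    (_ : E₀ = E₀) : dvolE (evA V eps u u') w X X' = 0 := by
  rw [dvolE_evA V eps u u' w hver]
  refine hC.nofl X X' n ((hC.ok.bnd hn₀ hn).trans hC.hΛ) (hC.ok.fwin hEW) ?_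
  have h3 : T.fw.real.vt (T.fw.puz.oth T.g T.l₀) (T.fw.real.lev T.f) = (H.up.U ^ T.t₀) s₂ := by
    rw [← hC.ok.h₂]; rfl
  rwa [h3] at hver

end

/-- FLIPA. -/
theorem flipA : FlipAS := by
  classical
  intro Q _ _ B a b eps D z k H F T x s₁ s₂ r h W Λ p hp V w hC u u' o ho hG c v₀ A hA K hGC hS
  obtain ⟨hcard, Pb, E, fin, hiS, hiR, hK, hδ⟩ := hGC
  set V' := evA V eps u u' with hV'
  have hz := hC.al
  have hT := hC.ok
  have hinv : V'.Inv (z ^ k) := evA_inv V eps u u' (by rw [map_pow, hz, one_pow])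
    (by rw [map_pow, H31.C_eps_z H, one_pow])
  set cu : (Σ c, T.Rc c) → ZMod p := fun q => V'.vol (rfC eps (B.q a) ((T.X q.1).x q.2)) (T.wd q.1 q.2) +
    o * ((eeC eps (((T.X q.1).y q.2 : {v // v ∈ F}) : Q) : ZMod p) -
      (eeC eps (((T.X q.1).x q.2 : {v // v ∈ F}) : Q) : ZMod p)) with hcu
  have hvol := fun c => (hT.fam c).vol V u u' o hz ho hG
  have hv := T.fw.vols V' hinv
  have e1 : (fun q : Σ c, T.Rc c => V'.vol ((H.up.U ^ T.fw.lev q) (T.fw.g (T.fw.x q))) (T.fw.W q).cup) = cu := by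
    funext q
    exact (hvol q.1).1.cup q.2
  have e2 : (fun q : Σ c, T.Rc c => V'.vol (T.fw.W q).w₀ (T.fw.W q).cap) = fun q => cu (T.fw.puz.tau q) := by
    funext q
    exact (hvol q.1).1.cap q.2
  rw [e1, e2] at hv
  set θ : (Σ c, T.Rc c) → {v // v ∈ F} → ZMod p := fun q s =>
    V'.vol ((H.up.U ^ T.fw.lev q) (T.fw.g s)) ((T.fw.W q).path ((H.up.U ^ T.fw.lev q) (T.fw.g s))) with hθ
  have hcmp : ∀ r, A ((T.X c).x r) ↔ A ((T.X c).y r) := hA.cmp c rfl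
  have hran : ∀ v, v ∈ Set.range E.iS ↔ A v := fun v =>
    ⟨fun ⟨v', hv'⟩ => by rw [← hv', hiS]; exact v'.2, fun hv => ⟨⟨v, hv⟩, hiS _⟩⟩
  obtain ⟨s, hs, ⟨r', hr', hAr', hKr'⟩, hi, hg, hd⟩ := hS
  by_contra hcon
  have hflip : T.fw.puz.Flip cu (fun q L => θ q L - (T.fw.real.H q : ZMod p) * o) (fun s => w (T.fw.real.g s))
      T.f T.g T.l₀ := by
    refine flipAK _ _ _ _ (ZMod p) T.fw.puz Pb E (fun r => K r.1) cu _ (fun s : {v // v ∈ F} => w s) T.f T.g T.l₀ s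
      ⟨r', hAr'⟩ hT.back ?_ hs (by rw [hr', hiR]) hi hg ?_ hK hKr' ?_ (two_ne hp.out H.kpos hC.big) hδ ?_
    · rintro ⟨q, hq⟩ s' hs'
      have h3 : ¬ A s' := fun h4 => hs' ((hran s').2 h4)
      rw [hiR]
      show θ ⟨c, q⟩ s' - ((T.X c).H q : ZMod p) * o = 0
      rw [sub_eq_zero]
      exact (hvol c).2 A hcmp q hq s' h3
    · have h3 := hd inferInstance
      intro h4
      apply h3
      refine Eq.trans ?_ h4
      refine Finset.sum_congr rfl fun t _ => ?_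
      by_cases h5 : A (s.2 t)
      · rw [if_pos h5, if_pos ((hran _).2 h5)]
      · rw [if_neg h5, if_neg fun h6 => h5 ((hran _).1 h6)]
    · rw [← Nat.card_eq_fintype_card]
      exact fact_ne hp.out hcard hC.big
    · rintro ⟨β, hβ⟩
      apply hcon
      refine ⟨fun v => (if hv : A v then β ⟨v, hv⟩ else 0) - o * (eeC eps (v : Q) : ZMod p), fun q hq => ?_⟩
      have h3 := hβ ⟨q, hq⟩
      have h4 : A ((T.X c).y q) := (hcmp q).1 hq
      beta_reduce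
      rw [dif_pos hq, dif_pos h4]
      have h5 : Pb.x ⟨q, hq⟩ = ⟨(T.X c).x q, hq⟩ := by
        apply Subtype.ext
        rw [← hiS, ← E.x, hiR]; rfl
      have h6 : Pb.y ⟨q, hq⟩ = ⟨(T.X c).y q, h4⟩ := by
        apply Subtype.ext
        rw [← hiS, ← E.y, hiR]; rfl
      rw [h5, h6, hiR] at h3
      have h7 : cu ⟨c, q⟩ = V'.vol (rfC eps (B.q a) ((T.X c).x q)) (T.wd c q) +
        o * ((eeC eps (((T.X c).y q : {v // v ∈ F}) : Q) : ZMod p) -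
          (eeC eps (((T.X c).x q : {v // v ∈ F}) : Q) : ZMod p)) := rfl
      rw [h7] at h3
      linear_combination h3
  obtain ⟨E₀, n₀, hE₀, hn₀⟩ := hT.base
  obtain ⟨X, X', n, hver, hEW, _, hn, hdv⟩ := realACw w o (perC H).1 hT.hle hT.adj hT.back hv ho (fun _ => rfl)
    (fun s => hC.wl s s.2 _ (T.fw.real.lev_lt _)) hE₀ hflip
  exact hdv (hC.no (E₀ := E₀) hn₀ hver hEW hn rfl)

/-- FLIPB. -/
theorem flipB : FlipBS := by
  classical
  intro Q _ _ B a b eps D z k H F T x s₁ s₂ r h W Λ p hp V w hC hchi hnu c v₀ A hA K hGC hS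
  obtain ⟨hcard, Pb, E, fin, hiS, hiR, hK, hδ⟩ := hGC
  have hz := hC.al
  have hT := hC.ok
  have h2 : (2 : ZMod p) ≠ 0 := two_ne hp.out H.kpos hC.big
  obtain ⟨u', hu1, hu2, hu3⟩ := exists_drift V H.ea H.eb 0 hchi h2
  set V' := evA V eps 0 u' with hV'
  have hinv : V'.Inv (z ^ k) := evA_inv V eps 0 u' (by rw [map_pow, hz, one_pow])
    (by rw [map_pow, H31.C_eps_z H, one_pow])
  have hv := T.fw.vols V' hinv
  have hwt : ∀ y : Q, V'.wt H.up y = V.chi (rfC eps (B.q a) y) * (nuW V a b / 2) := by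
    intro y
    unfold rfC
    rcases Int.units_eq_one_or (eps y) with h3 | h3
    · rw [if_pos h3]; exact hu1 y h3
    · rw [if_neg (by rw [h3]; decide)]; exact hu2 y h3
  have hran : ∀ v, v ∈ Set.range E.iS ↔ A v := fun v =>
    ⟨fun ⟨v', hv'⟩ => by rw [← hv', hiS]; exact v'.2, fun hv => ⟨⟨v, hv⟩, hiS _⟩⟩
  obtain ⟨s, hs, ⟨r', hr', hAr', hKr'⟩, hi, hg, hd⟩ := hS
  by_contra hcon
  unfold ChiOn at hcon
  push Not at hcon
  obtain ⟨q, hq', hne⟩ := hcon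
  have hflip := flipBK _ _ _ _ (ZMod p) T.fw.puz Pb E (fun r => K r.1) (fun s => V'.wt H.up (T.fw.real.g s))
    (fun s : {v // v ∈ F} => w s) T.f s ⟨r', hAr'⟩ hs (by rw [hr', hiR]) hi hg (by
      have h3 := hd inferInstance
      intro h4
      apply h3
      refine Eq.trans ?_ h4
      refine Finset.sum_congr rfl fun t _ => ?_
      by_cases h5 : A (s.2 t)
      · rw [if_pos h5, if_pos ((hran _).2 h5)]
      · rw [if_neg h5, if_neg fun h6 => h5 ((hran _).1 h6)]) hK hKr' (by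
      rw [← Nat.card_eq_fintype_card]
      exact fact_ne hp.out hcard hC.big) h2 hδ ⟨⟨q, hq'⟩, by
      rw [← E.x, ← E.y, hiR]
      show V'.wt H.up ((T.X c).x q : {v // v ∈ F}) ≠ V'.wt H.up ((T.X c).y q : {v // v ∈ F})
      rw [hwt, hwt]
      intro h3
      exact hne (mul_right_cancel₀ (div_ne_zero hnu h2) h3)⟩
    (T.fw.puz.gam (fun s => V'.wt H.up (T.fw.real.g s)) (fun t : T.fw.puz.TokOf T.f => w (T.fw.real.g t.1))
      (T.fw.puz.stb T.f T.g T.l₀) T.f T.l₀)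
  obtain ⟨E₀, n₀, hE₀, hn₀⟩ := hT.base
  have he : ((T.fw.real.e : ℕ) : ZMod p) ≠ 0 := by
    show ((2 * k : ℕ) : ZMod p) ≠ 0
    exact nat_ne (k := k) (by have := H.kpos; omega) (by omega) hC.big
  obtain ⟨X, X', n, hver, hEW, _, hn, hdv⟩ := realBEKw w (perC H).1 hT.hle hT.adj hT.back hv hu3 he
    (fun s => hC.wl s s.2 _ (T.fw.real.lev_lt _)) hE₀ hflip
  exact hdv (hC.no (E₀ := E₀) hn₀ hver hEW hn rfl)

/-- WIN. -/
theorem winV : WinS := by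
  intro Q _ _ B a b eps D z k H F T x s₁ s₂ r h W Λ hT _ _ hΛ _
  obtain ⟨E₀, n₀, hE₀, hn₀⟩ := hT.base
  exact ⟨T.fw.real.lev_lt T.f, E₀, n₀, (hT.bnd hn₀ (Nat.le_add_right _ _)).trans hΛ, hT.fwin hE₀⟩

end Pool.Agent.Lib.MP_688fd0_co.SQ4.CV
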