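import Pool.Agent.Lib.MP_688fd0_co.SQ4.IfaceV2
import Pool.Agent.Lib.MP_688fd0_co.SQ4.E.AlgV
import Pool.Agent.Lib.MP_688fd0_co.SQ4.E.FlipR

/-!
Row ALG of `IfaceV2`.
-/

set_option autoImplicit false

namespace Pool.Agent.Lib.MP_688fd0_co.SQ4.CV

open Pool.Agent.Lib.MP_688fd0_co.OSF Pool.Agent.Lib.MP_688fd0_co.SQ2 Pool.Agent.Lib.MP_688fd0_co.SQ3
open Pool.Agent.Lib.MP_688fd0_co.SQ4

theorem sheet_eq {S Q : Type} [Group Q] {D : Subgroup Q} {g : S → Q} {v v₁ : S} (h : Sh D (g v) (g v₁)) :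
    (fun u : S => Sh D (g v) (g u)) = fun u => Sh D (g v₁) (g u) := by
  funext u
  exact propext ⟨fun h1 => h.symm.trans h1, fun h1 => h.trans h1⟩

/-- A closed set meets the first sheet. -/
theorem first_sheet {S : Type} [Fintype S] [DecidableEq S] {Q : Type} [Group Q] [DecidableEq Q] {B : Lb.{0, 0} Q}
    {a b : B.L} {eps : Q →* ℤˣ} {D : Subgroup Q} {z : Q} {k : ℕ} {H : HypC B a b eps D z k} {g : S → Q}
    {inj : Function.Injective g} {R : Type} [Fintype R] {X : ClsW H.up g inj (2 * k) R} {s : B.L} {n : ℤ} {M : Set Q}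
    {Y₀ Y₁ : S → Prop} {wd : R → List B.L} {In : R → Prop} {h : ℕ} (hX : FamX H g inj X s n M Y₀ Y₁ wd In h)
    {A : S → Prop} (hA : ∀ r, A (X.x r) ↔ A (X.y r)) {v₀ : S} (h₀ : Y₀ v₀ ∨ Y₁ v₀) (hv : A v₀) :
    ∃ v₁, A v₁ ∧ Y₀ v₁ := by
  obtain ⟨d, hd, hdeg⟩ := hX.deg
  have h1 := (hdeg v₀ h₀).2
  have h2 : {r | ¬ In r ∧ (v₀ = X.x r ∨ v₀ = X.y r)}.Nonempty := by
    rw [Set.nonempty_iff_ne_empty]
    intro h3
    rw [h3, Set.ncard_empty] at h1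
    omega
  obtain ⟨r, hr, hr'⟩ := h2
  have hAx : A (X.x r) := by
    rcases hr' with h3 | h3
    · rwa [← h3]
    · rw [hA, ← h3]; exact hv
  rcases hX.cross r hr with h3 | h3
  · exact ⟨_, hAx, h3.1⟩
  · exact ⟨_, (hA r).1 hAx, h3.1⟩

/-- ALG. -/
theorem alg : AlgS := by
  intro Q _ _ B a b eps D z k H p hp V hpk _ hG u u' o _ hX hI
  have hk : ((k : ℕ) : ZMod p) ≠ 0 := nat_ne H.kpos (by omega) hpk
  have key : ∀ s, EffL B a b eps D z k s → ∃ i j f, CrsF H V s i j f := by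
    intro s hs
    obtain ⟨S, _, _, g, inj, R, _, X, n, M, v, y, wd, In, h, v₀, A, hD, hDis, hFX, h₀, hv₀, hA, Φ, hΦ⟩ := hX s hs
    obtain ⟨v₁, h1, h2⟩ := first_sheet hFX hA h₀ hv₀
    rw [sheet_eq h2] at hFX
    exact famX_fix hFX hs.1 hk le_rfl hDis hD hA h1 hΦ
  refine algC H hG ?_ key
  by_cases hE : ∃ s, EffL B a b eps D z k s
  · obtain ⟨s, hs⟩ := hE
    obtain ⟨i, j, f, hf⟩ := key s hs
    exact ⟨f, hf.inn⟩
  · push Not at hE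
    obtain ⟨S, _, _, g, inj, R, _, X, Y, wd, In, h, v₀, A, _, hDis, hB, hY, hv₀, hA, Φ, hΦ⟩ := hI hE
    exact famB_fix hB hk le_rfl hDis hA hv₀ hY hΦ

end Pool.Agent.Lib.MP_688fd0_co.SQ4.CV
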