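import Pool.Agent.Lib.MP_688fd0_co.SQ4.E.RealE
import Pool.Agent.Lib.MP_688fd0_co.SQ3.H98.KF

/-!
REAL A, REAL B for edge volumes with `Back`, and REAL A when all vertical edges have the same volume.
-/

set_option autoImplicit false

namespace Pool.Agent.Lib.MP_688fd0_co.SQ4

open Pool.Agent.Lib.MP_688fd0_co.OSF Pool.Agent.Lib.MP_688fd0_co.SQ2 Pool.Agent.Lib.MP_688fd0_co.SQ3
open SQ2.V (Puz shortR)
open SQ2.V.Puz (St)
open SQ3.Real
open SQ3.V (Back)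

universe u v w

/-- REAL A with `Back`. -/
theorem realAEK {S R : Type} [Fintype S] [DecidableEq S] [Fintype R] {P : Puz S R} {Q : Type} [Group Q]
    [DecidableEq Q] {B : Lb.{0, v} Q} {U : Up B} {Z : SQ3.Real P B U} {ζ : Q} {F : Type} [CommRing F] {V : Ev B F}
    {cu ca : R → F} {θ : R → S → F} (wt : Q → F) {f g : R} {l₀ : S} {h : ℕ} {E : TW B} {n₀ : ℕ}
    (hz : ∀ x, (U.U ^ Z.e) x = ζ * x) (hH : ∀ r, Z.H r ≤ h) (hadj : P.Adj g f l₀) (hback : Back P f g l₀)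
    (hv : VolsE Z V cu ca θ) (hn : ∀ x, V.e x (U.up x) = 0) (hca : ∀ r, ca r = cu (P.tau r))
    (hd : ∀ x, wt (U.U x) = wt x) (hE : EWr Z f g l₀ E n₀)
    (hflip : P.Flip cu θ (fun s => wt (Z.g s)) f g l₀) :
    ∃ (X X' : TW B) (n : ℕ), Ver U X X' n (Z.vt (P.oth g l₀) (Z.lev f)) ∧ EWr Z f g l₀ X n ∧ X.cap = E.cap ∧
      n ≤ n₀ + (2 * NW S R + 4) * (Z.e + h) ∧ dvolE V wt X X' ≠ 0 :=
  realAE wt hz hH hadj hback.back hv hn hca hd hE hflip

/-- REAL B with `Back`, for weights which are constant on the strands only. -/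
theorem realBEKw {S R : Type} [Fintype S] [DecidableEq S] [Fintype R] {P : Puz S R} {Q : Type} [Group Q]
    [DecidableEq Q] {B : Lb.{0, v} Q} {U : Up B} {Z : SQ3.Real P B U} {ζ : Q} {F : Type} [Field F] {V : Ev B F}
    {cu ca : R → F} {θ : R → S → F} (wt : Q → F) {f g : R} {l₀ : S} {h : ℕ} {E : TW B} {n₀ : ℕ}
    (hz : ∀ x, (U.U ^ Z.e) x = ζ * x) (hH : ∀ r, Z.H r ≤ h) (hadj : P.Adj g f l₀) (hback : Back P f g l₀)
    (hv : VolsE Z V cu ca θ) (homU : ∀ x, V.wt U (U.U x) = V.wt U x) (he : (Z.e : F) ≠ 0)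
    (hd : ∀ s, wt (Z.vt s (Z.lev f)) = wt (Z.g s)) (hE : EWr Z f g l₀ E n₀)
    (hflip : ∃ (s : St S R (P.TokOf f)) (r' : R) (v : S), P.WReach (P.st₁ f) s ∧ P.Adj s.1 r' v ∧
      P.gam (fun s => V.wt U (Z.g s)) (fun t : P.TokOf f => wt (Z.g t.1)) s r' v ≠
        P.gam (fun s => V.wt U (Z.g s)) (fun t : P.TokOf f => wt (Z.g t.1)) (P.stb f g l₀) f l₀) :
    ∃ (X X' : TW B) (n : ℕ), Ver U X X' n (Z.vt (P.oth g l₀) (Z.lev f)) ∧ EWr Z f g l₀ X n ∧ X.cap = E.cap ∧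
      n ≤ n₀ + (2 * NW S R + 4) * (Z.e + h) ∧ dvolE V wt X X' ≠ 0 := by
  have hcard := card_tok P f
  obtain ⟨s, r', v, hr, hadj', hgam⟩ := hflip
  obtain ⟨w₁, hw₁, ok₁, go₁⟩ := shortR S R (P.TokOf f) P _ _ hr
  have hr2 : P.WReach (P.step r' v s) (P.stb f g l₀) := hback.to_stb (hr.trans (SQ2.V.Puz.WReach.step hadj'))
  obtain ⟨w₂, hw₂, ok₂, go₂⟩ := shortR S R (P.TokOf f) P _ _ hr2
  obtain ⟨m, hm, okm, gom⟩ := shortR S R (P.TokOf f) P (P.st₁ f) (P.stb f g l₀)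
    ((hr.trans (SQ2.V.Puz.WReach.step hadj')).trans hr2)
  set N := Nat.card R * Nat.card S ^ Nat.card (P.TokOf f) with hN
  set K := (2 * N + 2) * (Z.e + h) with hK
  let W : WData Z := mkW hH hadj m okm gom K
  -- the two words
  set A := Z.timed W.t₁ w₁ with hA
  set tA := Z.endT W.t₁ A with htA
  set x : TL S R := ⟨r', v, Z.nx tA r'⟩ with hx
  set C := Z.timed (x.t + Z.H r') w₂ with hC
  have hxC : Z.timed tA ((r', v) :: w₂) = x :: C := rfl
  have hrA : runT P A (P.st₁ f) = s := by rw [hA, runT_timed]; exact go₁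
  have hvA : Z.Val W.t₁ (P.st₁ f).1 A := val_timed w₁ W.t₁ (P.st₁ f) ok₁
  have hvC : Z.Val tA s.1 (x :: C) := by
    rw [← hxC]
    exact val_timed ((r', v) :: w₂) tA s ⟨hadj', ok₂⟩
  have hrC : runT P (x :: C) s = P.stb f g l₀ := by
    rw [← hxC, runT_timed]; exact go₂
  have hvC' : Z.Val tA s.1 ((x :: C).map (TL.sh Z.e)) := by
    have h1 := val_sh 1 (x :: C) tA s.1 hvC
    rw [mul_one] at h1
    exact val_le _ (Nat.le_add_right _ _) h1
  have htA' : tA ≤ W.t₁ + N * (Z.e + h) := by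
    refine le_trans (endT_timed hH _ _) ?_
    have := Nat.mul_le_mul_right (Z.e + h) hw₁
    omega
  have hend : Z.endT tA (x :: C) ≤ W.t₁ + (2 * N + 1) * (Z.e + h) := by
    rw [← hxC]
    refine le_trans (endT_timed hH _ _) ?_
    have h1 := Nat.mul_le_mul_right (Z.e + h) hw₂
    have h2 : (2 * N + 1) * (Z.e + h) = N * (Z.e + h) + (N * (Z.e + h) + (Z.e + h)) := by ring
    rw [List.length_cons, Nat.add_mul, one_mul, h2]
    omega
  have hend' : Z.endT tA ((x :: C).map (TL.sh Z.e)) = Z.endT tA (x :: C) + Z.e := endT_sh Z.e tA (x :: C)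
  have htC : W.tC = W.t₁ + K := rfl
  have hK2 : K = (2 * N + 1) * (Z.e + h) + (Z.e + h) := by rw [hK]; ring
  obtain ⟨X, X', hX, hver, hdv⟩ := twoE.{0, v, 0} W (A ++ x :: C) (A ++ (x :: C).map (TL.sh Z.e))
    (val_append _ _ W.t₁ (P.st₁ f) hvA (by rw [hrA]; exact hvC)) (by rw [runT_append]; exact hrA ▸ hrC)
    (by rw [endT_append, ← htA]; omega)
    (val_append _ _ W.t₁ (P.st₁ f) hvA (by rw [hrA]; exact hvC')) (by
      rw [runT_append, runT_sh]; exact hrA ▸ hrC)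
    (by rw [endT_append, ← htA, hend']; omega)
  have hEW : EWr Z f g l₀ X (W.T - W.t₀) := Is.ew (W := W) hX rfl (Z.lastT_dvd _ _)
  obtain ⟨z, hz'⟩ := pow_z hz hEW.dvd
  obtain ⟨Y, Y', y1, y2, y3, y4, y5, y6, y7⟩ := comp_rightE (m := n₀) (Y := E) hver hE.flat
    (by rw [hE.L₀, hEW.L₀]) (by rw [hE.u₀, hEW.u₀]) (by rw [hE.u₁, hEW.u₁]) hz'
  refine ⟨Y, Y', W.T - W.t₀ + n₀, y1, ⟨y1.flat, by rw [y2, hEW.L₀], by rw [y3, hEW.u₀], by rw [y4, hEW.u₁],
    Nat.dvd_add hEW.dvd hE.dvd, by rw [y5, hEW.cup]⟩, y6, ?_, ?_⟩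
  · have h1 := mkW_T_le hH hadj m okm gom K
    have h2 : K + (m.length + 2) * (Z.e + h) ≤ (2 * NW S R + 4) * (Z.e + h) := by
      rw [hK, ← Nat.add_mul]
      refine Nat.mul_le_mul_right _ ?_
      unfold NW
      omega
    have h3 : W.T - W.t₀ ≤ (2 * NW S R + 4) * (Z.e + h) := le_trans h1 h2
    omega
  · set D := vdEB hv homU with hD
    have hG : ∀ t, D.gg (t + Z.e) = D.gg t + Z.e := by
      intro t
      show ((t + Z.e : ℕ) : F) = (t : F) + Z.e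
      rw [Nat.cast_add]
    have h1 := hdv V D wt (fun s => wt (Z.g s)) hd
    have h2 : wcsE D (fun i : P.TokOf f => wt (Z.g i.1)) (D.ca f) W.t₁ (P.st₁ f)
        (A ++ (x :: C).map (TL.sh Z.e)) = wcsE D (fun i : P.TokOf f => wt (Z.g i.1)) (D.ca f) W.t₁
        (P.st₁ f) (A ++ x :: C) + Z.e * GamE D (fun i : P.TokOf f => wt (Z.g i.1)) s r' v := by
      rw [wcsE_append, wcsE_append, hrA, wcsE_wait D _ hG _ _ s x C hadj']
      ring
    have h3 : D.gg (Z.endT W.t₁ (A ++ (x :: C).map (TL.sh Z.e))) - D.gg (Z.endT W.t₁ (A ++ x :: C)) =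
        Z.e := by
      rw [endT_append, endT_append, ← htA, hend', hG]; ring
    rw [y7 V wt, h1]
    have h5 : wcsE D (fun i : P.TokOf f => wt (Z.g i.1)) (D.ca f) W.t₁ (P.st₁ f)
        (A ++ (x :: C).map (TL.sh Z.e)) - wcsE D (fun i : P.TokOf f => wt (Z.g i.1)) (D.ca f) W.t₁
        (P.st₁ f) (A ++ x :: C) - (D.gg (Z.endT W.t₁ (A ++ (x :: C).map (TL.sh Z.e))) -
          D.gg (Z.endT W.t₁ (A ++ x :: C))) * GamE D (fun i : P.TokOf f => wt (Z.g i.1))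
            (P.stb f g l₀) f l₀ =
        Z.e * (P.gam (fun s => V.wt U (Z.g s)) (fun t : P.TokOf f => wt (Z.g t.1)) s r' v -
          P.gam (fun s => V.wt U (Z.g s)) (fun t : P.TokOf f => wt (Z.g t.1)) (P.stb f g l₀) f l₀) := by
      rw [h2, h3]
      show _ = Z.e * (GamE D (fun i : P.TokOf f => wt (Z.g i.1)) s r' v -
        GamE D (fun i : P.TokOf f => wt (Z.g i.1)) (P.stb f g l₀) f l₀)
      ring
    show wcsE D (fun i : P.TokOf f => wt (Z.g i.1)) (D.ca f) W.t₁ (P.st₁ f)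
        (A ++ (x :: C).map (TL.sh Z.e)) - wcsE D (fun i : P.TokOf f => wt (Z.g i.1)) (D.ca f) W.t₁
        (P.st₁ f) (A ++ x :: C) - (D.gg (Z.endT W.t₁ (A ++ (x :: C).map (TL.sh Z.e))) -
          D.gg (Z.endT W.t₁ (A ++ x :: C))) * GamE D (fun i : P.TokOf f => wt (Z.g i.1))
            (P.stb f g l₀) f l₀ ≠ 0
    rw [h5]
    exact mul_ne_zero he (sub_ne_zero.2 hgam)

/-- REAL B with `Back`. -/
theorem realBEK {S R : Type} [Fintype S] [DecidableEq S] [Fintype R] {P : Puz S R} {Q : Type} [Group Q]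
    [DecidableEq Q] {B : Lb.{0, v} Q} {U : Up B} {Z : SQ3.Real P B U} {ζ : Q} {F : Type} [Field F] {V : Ev B F}
    {cu ca : R → F} {θ : R → S → F} (wt : Q → F) {f g : R} {l₀ : S} {h : ℕ} {E : TW B} {n₀ : ℕ}
    (hz : ∀ x, (U.U ^ Z.e) x = ζ * x) (hH : ∀ r, Z.H r ≤ h) (hadj : P.Adj g f l₀) (hback : Back P f g l₀)
    (hv : VolsE Z V cu ca θ) (homU : ∀ x, V.wt U (U.U x) = V.wt U x) (he : (Z.e : F) ≠ 0)
    (hd : ∀ x, wt (U.U x) = wt x) (hE : EWr Z f g l₀ E n₀)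
    (hflip : ∃ (s : St S R (P.TokOf f)) (r' : R) (v : S), P.WReach (P.st₁ f) s ∧ P.Adj s.1 r' v ∧
      P.gam (fun s => V.wt U (Z.g s)) (fun t : P.TokOf f => wt (Z.g t.1)) s r' v ≠
        P.gam (fun s => V.wt U (Z.g s)) (fun t : P.TokOf f => wt (Z.g t.1)) (P.stb f g l₀) f l₀) :
    ∃ (X X' : TW B) (n : ℕ), Ver U X X' n (Z.vt (P.oth g l₀) (Z.lev f)) ∧ EWr Z f g l₀ X n ∧ X.cap = E.cap ∧
      n ≤ n₀ + (2 * NW S R + 4) * (Z.e + h) ∧ dvolE V wt X X' ≠ 0 :=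
  realBEKw wt hz hH hadj hback hv homU he (fun _ => w_pow hd _ _) hE hflip

/-- Costs of words when all strands have the same drift. -/
theorem wcsE_const {S R : Type} [Fintype S] [DecidableEq S] {P : Puz S R} {Q : Type u} [Group Q] [DecidableEq Q]
    {B : Lb.{u, v} Q} {U : Up B} {Z : SQ3.Real P B U} {F : Type} [CommRing F] {V : Ev B F} (D : VDE Z V) (o : F)
    {Tok : Type} [Fintype Tok] (d : Tok → F) (hgg : ∀ t, D.gg t = (t : F)) (hom : ∀ s, D.om s = o)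
    (hca : ∀ r, D.ca r = D.cu (P.tau r))
    (l : List (TL S R)) : ∀ (c : F) (t₀ : ℕ) (s : St S R Tok), c = D.cu s.1 →
      wcsE D d c t₀ s l = P.wcost D.cu (fun r L => D.th r L - (Z.H r : F) * o) d s (untime l) +
        (∑ i, d i) * (((Z.endT t₀ l : ℕ) : F) - (t₀ : F)) * o := by
  induction l with
  | nil =>
    intro c t₀ s _
    show (0 : F) = 0 + (∑ i, d i) * (((t₀ : ℕ) : F) - (t₀ : F)) * o
    ring
  | cons x l ih =>
    intro c t₀ s hc
    show wcE D d c t₀ s x + wcsE D d (D.ca x.r) _ (P.step x.r x.v s) l =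
      P.scost D.cu (fun r L => D.th r L - (Z.H r : F) * o) d s x.r x.v +
        P.wcost D.cu (fun r L => D.th r L - (Z.H r : F) * o) d (P.step x.r x.v s) (untime l) +
        (∑ i, d i) * (((Z.endT (x.t + Z.H x.r) l : ℕ) : F) - (t₀ : F)) * o
    rw [ih _ _ (P.step x.r x.v s) (hca x.r)]
    have h1 : wcE D d c t₀ s x = P.scost D.cu (fun r L => D.th r L - (Z.H r : F) * o) d s x.r x.v +
        (∑ i, d i) * (((x.t + Z.H x.r : ℕ) : F) - (t₀ : F)) * o := by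
      unfold wcE SQ2.V.Puz.scost
      rw [Finset.sum_mul, Finset.sum_mul, ← Finset.sum_add_distrib]
      refine Finset.sum_congr rfl fun i _ => ?_
      unfold tcE SQ2.V.Puz.volr
      rw [hgg, hgg, hom, hom, hom, hc]
      push_cast
      by_cases h : s.2 i = P.oth x.r x.v
      · rw [if_pos h, if_pos h]
        by_cases h1 : x.v = P.x x.r
        · by_cases h2 : x.v = P.x s.1
          · rw [if_pos h1, if_pos h2, if_pos h1, if_pos h2]; ring
          · rw [if_pos h1, if_neg h2, if_pos h1, if_neg h2]; ring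
        · by_cases h2 : x.v = P.x s.1
          · rw [if_neg h1, if_pos h2, if_neg h1, if_pos h2]; ring
          · rw [if_neg h1, if_neg h2, if_neg h1, if_neg h2]; ring
      · rw [if_neg h, if_neg h]; ring
    rw [h1]
    ring

/-- REAL A when all vertical edges have the volume `o`. The costs of the paths are normalised by `H r * o`. The weights
are constant on the strands only. -/
theorem realACw {S R : Type} [Fintype S] [DecidableEq S] [Fintype R] {P : Puz S R} {Q : Type} [Group Q]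
    [DecidableEq Q] {B : Lb.{0, v} Q} {U : Up B} {Z : SQ3.Real P B U} {ζ : Q} {F : Type} [CommRing F] {V : Ev B F}
    {cu ca : R → F} {θ : R → S → F} (wt : Q → F) {f g : R} {l₀ : S} {h : ℕ} {E : TW B} {n₀ : ℕ} (o : F)
    (hz : ∀ x, (U.U ^ Z.e) x = ζ * x) (hH : ∀ r, Z.H r ≤ h) (hadj : P.Adj g f l₀) (hback : Back P f g l₀)
    (hv : VolsE Z V cu ca θ) (hn : ∀ x, V.e x (U.up x) = o) (hca : ∀ r, ca r = cu (P.tau r))
    (hd : ∀ s, wt (Z.vt s (Z.lev f)) = wt (Z.g s)) (hE : EWr Z f g l₀ E n₀)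
    (hflip : P.Flip cu (fun r L => θ r L - (Z.H r : F) * o) (fun s => wt (Z.g s)) f g l₀) :
    ∃ (X X' : TW B) (n : ℕ), Ver U X X' n (Z.vt (P.oth g l₀) (Z.lev f)) ∧ EWr Z f g l₀ X n ∧ X.cap = E.cap ∧
      n ≤ n₀ + (2 * NW S R + 4) * (Z.e + h) ∧ dvolE V wt X X' ≠ 0 := by
  have hcard := card_tok P f
  obtain ⟨l, l', ok, go, ok', go', hne, hl, hl'⟩ := short P cu (fun r L => θ r L - (Z.H r : F) * o)
    (fun t : P.TokOf f => wt (Z.g t)) (P.st₁ f) (P.stb f g l₀) hback.back (by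
      obtain ⟨l, l', h1, h2, h3, h4, h5⟩ := hflip
      exact ⟨l, l', h1, h2, h3, h4, h5⟩)
  obtain ⟨m, hm, okm, gom⟩ := shortR S R (P.TokOf f) P (P.st₁ f) (P.stb f g l₀) ⟨l, ok, go⟩
  set N := Nat.card R * Nat.card S ^ Nat.card (P.TokOf f) with hN
  set K := (2 * N + 1) * (Z.e + h) with hK
  let W : WData Z := mkW hH hadj m okm gom K
  have hb : ∀ l : List (R × S), l.length ≤ 2 * N + 1 → Z.endT W.t₁ (Z.timed W.t₁ l) ≤ W.tC := by
    intro l hl
    refine le_trans (endT_timed hH _ _) ?_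
    have := Nat.mul_le_mul_right (Z.e + h) hl
    show Z.lev f + Z.H f + _ ≤ Z.lev f + Z.H f + K
    omega
  obtain ⟨X, X', hX, hver, hdv⟩ := twoE.{0, v, 0} W (Z.timed W.t₁ l) (Z.timed W.t₁ l')
    (val_timed l W.t₁ (P.st₁ f) ok) (by rw [runT_timed]; exact go) (hb l hl)
    (val_timed l' W.t₁ (P.st₁ f) ok') (by rw [runT_timed]; exact go') (hb l' hl')
  have hEW : EWr Z f g l₀ X (W.T - W.t₀) := Is.ew (W := W) hX rfl (Z.lastT_dvd _ _)
  obtain ⟨z, hz'⟩ := pow_z hz hEW.dvd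
  obtain ⟨Y, Y', y1, y2, y3, y4, y5, y6, y7⟩ := comp_rightE (m := n₀) (Y := E) hver hE.flat
    (by rw [hE.L₀, hEW.L₀]) (by rw [hE.u₀, hEW.u₀]) (by rw [hE.u₁, hEW.u₁]) hz'
  refine ⟨Y, Y', W.T - W.t₀ + n₀, y1, ⟨y1.flat, by rw [y2, hEW.L₀], by rw [y3, hEW.u₀], by rw [y4, hEW.u₁],
    Nat.dvd_add hEW.dvd hE.dvd, by rw [y5, hEW.cup]⟩, y6, ?_, ?_⟩
  · have h1 := mkW_T_le hH hadj m okm gom K
    have h2 : K + (m.length + 2) * (Z.e + h) ≤ (2 * NW S R + 4) * (Z.e + h) := by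
      rw [hK, ← Nat.add_mul]
      refine Nat.mul_le_mul_right _ ?_
      unfold NW
      omega
    have h3 : W.T - W.t₀ ≤ (2 * NW S R + 4) * (Z.e + h) := le_trans h1 h2
    omega
  · have homU : ∀ x, V.wt U (U.U x) = V.wt U x := fun x => (hn _).trans (hn _).symm
    set D := vdEB hv homU with hD
    have hom : ∀ s, D.om s = o := fun s => hn _
    have hgg : ∀ t, D.gg t = (t : F) := fun t => rfl
    have h1 := hdv V D wt (fun s => wt (Z.g s)) hd
    have e1 : ∀ w, wcsE D (fun i : P.TokOf f => wt (Z.g i.1)) (D.ca f) W.t₁ (P.st₁ f) (Z.timed W.t₁ w) =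
        P.wcost cu (fun r L => θ r L - (Z.H r : F) * o) (fun t : P.TokOf f => wt (Z.g t)) (P.st₁ f) w +
          (∑ i : P.TokOf f, wt (Z.g i.1)) * (((Z.endT W.t₁ (Z.timed W.t₁ w) : ℕ) : F) - (W.t₁ : F)) * o := by
      intro w
      have := wcsE_const D o (fun i : P.TokOf f => wt (Z.g i.1)) hgg hom hca (Z.timed W.t₁ w) (D.ca f)
        W.t₁ (P.st₁ f) (hca f)
      rw [untime_timed] at this
      exact this
    have e4 : GamE D (fun i : P.TokOf f => wt (Z.g i.1)) (P.stb f g l₀) f l₀ =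
        (∑ i : P.TokOf f, wt (Z.g i.1)) * o := by
      unfold GamE
      rw [Finset.sum_mul]
      refine Finset.sum_congr rfl fun i _ => ?_
      rw [hom, hom, hom]
      split_ifs <;> ring
    rw [y7 V wt, h1]
    intro h0
    apply hne
    have e2 := e1 l
    have e3 := e1 l'
    have h0' : wcsE D (fun i : P.TokOf f => wt (Z.g i.1)) (D.ca f) W.t₁ (P.st₁ f) (Z.timed W.t₁ l') -
        wcsE D (fun i : P.TokOf f => wt (Z.g i.1)) (D.ca f) W.t₁ (P.st₁ f) (Z.timed W.t₁ l) -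
        (((Z.endT W.t₁ (Z.timed W.t₁ l') : ℕ) : F) - ((Z.endT W.t₁ (Z.timed W.t₁ l) : ℕ) : F)) *
          GamE D (fun i : P.TokOf f => wt (Z.g i.1)) (P.stb f g l₀) f l₀ = 0 := h0
    rw [e2, e3, e4] at h0'
    linear_combination -h0'

/-- REAL A when all vertical edges have the volume `o`. The costs of the paths are normalised by `H r * o`. -/
theorem realAC {S R : Type} [Fintype S] [DecidableEq S] [Fintype R] {P : Puz S R} {Q : Type} [Group Q]
    [DecidableEq Q] {B : Lb.{0, v} Q} {U : Up B} {Z : SQ3.Real P B U} {ζ : Q} {F : Type} [CommRing F] {V : Ev B F}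
    {cu ca : R → F} {θ : R → S → F} (wt : Q → F) {f g : R} {l₀ : S} {h : ℕ} {E : TW B} {n₀ : ℕ} (o : F)
    (hz : ∀ x, (U.U ^ Z.e) x = ζ * x) (hH : ∀ r, Z.H r ≤ h) (hadj : P.Adj g f l₀) (hback : Back P f g l₀)
    (hv : VolsE Z V cu ca θ) (hn : ∀ x, V.e x (U.up x) = o) (hca : ∀ r, ca r = cu (P.tau r))
    (hd : ∀ x, wt (U.U x) = wt x) (hE : EWr Z f g l₀ E n₀)
    (hflip : P.Flip cu (fun r L => θ r L - (Z.H r : F) * o) (fun s => wt (Z.g s)) f g l₀) :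
    ∃ (X X' : TW B) (n : ℕ), Ver U X X' n (Z.vt (P.oth g l₀) (Z.lev f)) ∧ EWr Z f g l₀ X n ∧ X.cap = E.cap ∧
      n ≤ n₀ + (2 * NW S R + 4) * (Z.e + h) ∧ dvolE V wt X X' ≠ 0 :=
  realACw wt o hz hH hadj hback hv hn hca (fun _ => w_pow hd _ _) hE hflip

end Pool.Agent.Lib.MP_688fd0_co.SQ4
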