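import Pool.Agent.Lib.MP_688fd0_co.SQ4.Iface
import Pool.Agent.Lib.MP_688fd0_co.SQ4.E.RealK

/-!
The gauges of type C1. The labels act on the affine line by `l . u = n l + chi l * u`. With the points `u` for the kernel
of `eps` and `u'` for its complement the volume of an edge is `chi x * (l . (point of the end) - (point of x))`.
-/

set_option autoImplicit false

namespace Pool.Agent.Lib.MP_688fd0_co.SQ4

open Pool.Agent.Lib.MP_688fd0_co.OSF Pool.Agent.Lib.MP_688fd0_co.SQ2 Pool.Agent.Lib.MP_688fd0_co.SQ3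

universe u v w

section gauge

variable {Q : Type u} [Group Q] {B : Lb.{u, v} Q} {F : Type w} [CommRing F]

/-- The point of `x`. -/
def ptA (eps : Q →* ℤˣ) (u u' : F) (x : Q) : F := if eps x = 1 then u else u'

/-- The action of a word on the affine line. -/
def affw (V : Vd B F) : List B.L → F → F
  | [], y => y
  | l :: w, y => V.n l + V.chi (B.q l) * affw V w y

/-- The volumes in the gauge of the points `u`, `u'`. -/
def evA (V : Vd B F) (eps : Q →* ℤˣ) (u u' : F) : Ev B F := V.toEv.sub fun x => - (V.chi x * ptA eps u u' x)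

theorem evA_e (V : Vd B F) (eps : Q →* ℤˣ) (u u' : F) (x : Q) (l : B.L) :
    (evA V eps u u').e x l =
      V.chi x * (V.n l + V.chi (B.q l) * ptA eps u u' (x * B.q l) - ptA eps u u' x) := by
  show V.chi x * V.n l - (-(V.chi (x * B.q l) * ptA eps u u' (x * B.q l)) - -(V.chi x * ptA eps u u' x)) = _
  rw [map_mul]; ring

theorem evA_vol (V : Vd B F) (eps : Q →* ℤˣ) (u u' : F) (w : List B.L) : ∀ x : Q,
    (evA V eps u u').vol x w = V.chi x * (affw V w (ptA eps u u' (B.fin x w)) - ptA eps u u' x) := by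
  induction w with
  | nil => intro x; show (0 : F) = V.chi x * (ptA eps u u' x - ptA eps u u' x); ring
  | cons l w ih =>
    intro x
    show (evA V eps u u').e x l + (evA V eps u u').vol (x * B.q l) w =
      V.chi x * (V.n l + V.chi (B.q l) * affw V w (ptA eps u u' (B.fin (x * B.q l) w)) - ptA eps u u' x)
    rw [ih, evA_e, map_mul]; ring

theorem ptA_mul (eps : Q →* ℤˣ) (u u' : F) {x y : Q} (h : eps y = 1) : ptA eps u u' (x * y) = ptA eps u u' x := by
  unfold ptA; rw [map_mul, h, mul_one]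

theorem ptA_mul' (eps : Q →* ℤˣ) (u u' : F) {x y : Q} (h : eps y = -1) : ptA eps u u' (x * y) = ptA eps u' u x := by
  unfold ptA
  rw [map_mul, h]
  rcases Int.units_eq_one_or (eps x) with h1 | h1
  · rw [h1, if_pos rfl, if_neg (by decide)]
  · rw [h1, if_pos (by decide), if_neg (by decide)]

/-- Rotations. -/
theorem evA_rot (V : Vd B F) (eps : Q →* ℤˣ) (u u' : F) (x : Q) (t : B.L) (ht : eps (B.q t) = 1) :
    (evA V eps u u').e x t = V.chi x * (V.n t + (V.chi (B.q t) - 1) * ptA eps u u' x) := by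
  rw [evA_e, ptA_mul eps u u' ht]; ring

/-- Reflections. -/
theorem evA_ref (V : Vd B F) (eps : Q →* ℤˣ) (u u' : F) (x : Q) (s : B.L) (hs : eps (B.q s) = -1) :
    (evA V eps u u').e x s =
      V.chi x * (V.n s + V.chi (B.q s) * ptA eps u' u x - ptA eps u u' x) := by
  rw [evA_e, ptA_mul' eps u u' hs]

theorem evA_inv (V : Vd B F) (eps : Q →* ℤˣ) (u u' : F) {ζ : Q} (h : V.chi ζ = 1) (h1 : eps ζ = 1) :
    (evA V eps u u').Inv ζ := by
  refine Ev.Inv.sub (toEv_Inv V h) fun x => ?_
  unfold ptA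
  rw [map_mul, map_mul, h, h1, one_mul, one_mul]

theorem dvolE_evA [DecidableEq Q] (V : Vd B F) (eps : Q →* ℤˣ) (u u' : F) (wt : Q → F) {U : Up B} {X X' : TW B}
    {n : ℕ} {xs : Q} (h : Ver U X X' n xs) : dvolE (evA V eps u u') wt X X' = dvolw V wt X X' := by
  unfold evA
  rw [dvolE_sub _ _ _ h, dvolE_toEv]

/-- The translation part of `a b⁻¹`. -/
def nuW (V : Vd B F) (a b : B.L) : F := V.n a + V.chi (B.q a) * V.n (B.inv b)

theorem nuW_eq (V : Vd B F) (a b : B.L) : nuW V a b = V.n a - V.chi (B.q a * (B.q b)⁻¹) * V.n b := by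
  unfold nuW
  rw [V.n_inv, map_mul]; ring

end gauge

section up

variable {Q : Type u} [Group Q] {B : Lb.{u, v} Q} {F : Type w} [Field F] {a b : B.L} {eps : Q →* ℤˣ}

theorem chi_inv_mul (V : Vd B F) (x : Q) : V.chi x⁻¹ * V.chi x = 1 := by
  rw [← map_mul, inv_mul_cancel, map_one]

theorem chi_ne (V : Vd B F) (x : Q) : V.chi x ≠ 0 := fun h => by
  have := chi_inv_mul V x
  rw [h, mul_zero] at this
  exact zero_ne_one this

/-- If `u` is fixed by `a b⁻¹` then all plain vertical edges have volume zero for a suitable `u'`. -/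
theorem exists_zero (V : Vd B F) (ha : eps (B.q a) = -1) (hb : eps (B.q b) = -1) (u : F)
    (hu : nuW V a b + V.chi (B.q a * (B.q b)⁻¹) * u = u) :
    ∃ u' : F, ∀ x, (evA V eps u u').e x ((upC B a b eps ha hb).up x) = 0 := by
  have hb' : eps (B.q (B.inv b)) = -1 := by rw [B.q_inv, map_inv, hb]; decide
  refine ⟨V.n (B.inv b) + V.chi (B.q (B.inv b)) * u, fun x => ?_⟩
  show (evA V eps u _).e x (if eps x = 1 then a else B.inv b) = 0
  rcases Int.units_eq_one_or (eps x) with h | h
  · have h1 : ∀ y y' : F, ptA eps y y' x = y := fun y y' => if_pos h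
    rw [if_pos h, evA_ref V eps _ _ x a ha, h1, h1]
    unfold nuW at hu
    rw [map_mul] at hu
    rw [B.q_inv]
    linear_combination V.chi x * hu
  · have h0 : eps x ≠ 1 := by rw [h]; decide
    have h1 : ∀ y y' : F, ptA eps y y' x = y' := fun y y' => if_neg h0
    rw [if_neg h0, evA_ref V eps _ _ x _ hb', h1, h1]
    ring

/-- If `a b⁻¹` is a translation then the plain drift is constant along the lines for a suitable `u'`. -/
theorem exists_drift (V : Vd B F) (ha : eps (B.q a) = -1) (hb : eps (B.q b) = -1) (u : F)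
    (hw : V.chi (B.q a * (B.q b)⁻¹) = 1) (h2 : (2 : F) ≠ 0) :
    ∃ u' : F, (∀ x, eps x = 1 → (evA V eps u u').e x ((upC B a b eps ha hb).up x) = V.chi x * (nuW V a b / 2)) ∧
      (∀ x, eps x = -1 → (evA V eps u u').e x ((upC B a b eps ha hb).up x) =
        V.chi (x * (B.q a)⁻¹) * (nuW V a b / 2)) ∧
      ∀ x, (evA V eps u u').wt (upC B a b eps ha hb) ((upC B a b eps ha hb).U x) =
        (evA V eps u u').wt (upC B a b eps ha hb) x := by
  have hb' : eps (B.q (B.inv b)) = -1 := by rw [B.q_inv, map_inv, hb]; decide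
  have hab : V.chi (B.q b) = V.chi (B.q a) := by
    rw [map_mul] at hw
    have := chi_inv_mul V (B.q b)
    linear_combination (-V.chi (B.q b)) * hw + V.chi (B.q a) * this
  have hab' : V.chi (B.q b)⁻¹ = V.chi (B.q a)⁻¹ := by
    have h1 := chi_inv_mul V (B.q b)
    have h3 := chi_inv_mul V (B.q a)
    rw [hab] at h1
    refine mul_right_cancel₀ (chi_ne V (B.q a)) (h1.trans h3.symm)
  have haa := chi_inv_mul V (B.q a)
  set c : F := V.chi (B.q a)⁻¹ with hc
  set u' : F := c * (u + nuW V a b / 2 - V.n a) with hu'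
  have hn : nuW V a b = V.n a + V.chi (B.q a) * V.n (B.inv b) := rfl
  have h22 : (2 : F) * (nuW V a b / 2) = nuW V a b := mul_div_cancel₀ _ h2
  have k1 : ∀ x, eps x = 1 → (evA V eps u u').e x ((upC B a b eps ha hb).up x) = V.chi x * (nuW V a b / 2) := by
    intro x h
    have h1 : ∀ y y' : F, ptA eps y y' x = y := fun y y' => if_pos h
    show (evA V eps u _).e x (if eps x = 1 then a else B.inv b) = _
    rw [if_pos h, evA_ref V eps _ _ x a ha, h1, h1, hu']
    linear_combination V.chi x * (u + nuW V a b / 2 - V.n a) * haa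
  have k2 : ∀ x, eps x = -1 → (evA V eps u u').e x ((upC B a b eps ha hb).up x) =
      V.chi (x * (B.q a)⁻¹) * (nuW V a b / 2) := by
    intro x h
    have h0 : eps x ≠ 1 := by rw [h]; decide
    have h1 : ∀ y y' : F, ptA eps y y' x = y' := fun y y' => if_neg h0
    show (evA V eps u _).e x (if eps x = 1 then a else B.inv b) = _
    rw [if_neg h0, evA_ref V eps _ _ x _ hb', h1, h1, B.q_inv, hab', map_mul, ← hc, hu']
    linear_combination (-V.chi x * V.n (B.inv b)) * haa - V.chi x * c * h22 - V.chi x * c * hn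
  refine ⟨u', k1, k2, fun x => ?_⟩
  show (evA V eps u u').e _ ((upC B a b eps ha hb).up _) = (evA V eps u u').e x ((upC B a b eps ha hb).up x)
  rcases Int.units_eq_one_or (eps x) with h | h
  · have hU : (upC B a b eps ha hb).U x = x * B.q a := by
      show (if eps x = 1 then x * B.q a else x * (B.q b)⁻¹) = _
      rw [if_pos h]
    rw [hU, k1 x h, k2 _ (by rw [map_mul, h, ha]; decide), mul_inv_cancel_right]
  · have h0 : eps x ≠ 1 := by rw [h]; decide
    have hU : (upC B a b eps ha hb).U x = x * (B.q b)⁻¹ := by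
      show (if eps x = 1 then x * B.q a else x * (B.q b)⁻¹) = _
      rw [if_neg h0]
    rw [hU, k2 x h, k1 _ (by rw [map_mul, map_inv, h, hb]; decide), map_mul, map_mul, hab']

end up

end Pool.Agent.Lib.MP_688fd0_co.SQ4
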