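import Pool.Agent.Lib.MP_688fd0_co.SQ3.Flat
import Pool.Agent.Lib.MP_688fd0_co.SQ3.Words

/-!
Edge volumes: `E x l` is the volume of the edge with label `l` at the vertex `x`. They generalise `Vd` (volumes
`chi x * n l`) by arbitrary potentials: `V.toEv.sub φ` is the volume minus the differences of `φ`.
-/

set_option autoImplicit false

namespace Pool.Agent.Lib.MP_688fd0_co.SQ4

open Pool.Agent.Lib.MP_688fd0_co.OSF Pool.Agent.Lib.MP_688fd0_co.SQ2 Pool.Agent.Lib.MP_688fd0_co.SQ3

universe u v w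

/-- Volumes of the edges. -/
structure Ev {Q : Type u} [Group Q] (B : Lb.{u, v} Q) (F : Type w) [CommRing F] where
  e : Q → B.L → F
  e_inv : ∀ x l, e (x * B.q l) (B.inv l) = - e x l

section

variable {Q : Type u} [Group Q] {B : Lb.{u, v} Q} {F : Type w} [CommRing F]

/-- The volume of a path. -/
def Ev.vol (E : Ev B F) : Q → List B.L → F
  | _, [] => 0
  | x, g :: l => E.e x g + Ev.vol E (x * B.q g) l

theorem Ev.vol_append (E : Ev B F) (x : Q) (l l' : List B.L) :
    E.vol x (l ++ l') = E.vol x l + E.vol (B.fin x l) l' := by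
  induction l generalizing x with
  | nil => show E.vol x l' = 0 + E.vol x l'; rw [zero_add]
  | cons g l ih =>
    show E.e x g + E.vol (x * B.q g) (l ++ l') = E.e x g + E.vol (x * B.q g) l + _
    rw [ih, add_assoc]; rfl

theorem Ev.vol_rev (E : Ev B F) (x : Q) (l : List B.L) : E.vol (B.fin x l) (B.rev l) = - E.vol x l := by
  induction l generalizing x with
  | nil => show (0 : F) = -0; rw [neg_zero]
  | cons g l ih =>
    rw [rev_cons, Ev.vol_append]
    show E.vol (B.fin (x * B.q g) l) (B.rev l) + E.vol (B.fin (B.fin (x * B.q g) l) (B.rev l)) [B.inv g] =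
      -(E.e x g + E.vol (x * B.q g) l)
    rw [ih, fin_rev]
    show -E.vol (x * B.q g) l + (E.e (x * B.q g) (B.inv g) + 0) = _
    rw [E.e_inv]; ring

/-- The volumes of `Vd`. -/
def _root_.Pool.Agent.Lib.MP_688fd0_co.OSF.Vd.toEv (V : Vd B F) : Ev B F where
  e := fun x l => V.chi x * V.n l
  e_inv := fun x l => by
    rw [V.n_inv, map_mul]
    have h1 : V.chi (B.q l) * V.chi (B.q l)⁻¹ = 1 := by rw [← map_mul, mul_inv_cancel, map_one]
    linear_combination (-(V.chi x * V.n l)) * h1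

theorem toEv_vol (V : Vd B F) (x : Q) (l : List B.L) : V.toEv.vol x l = V.vol x l := by
  induction l generalizing x with
  | nil => rfl
  | cons g l ih => show _ + V.toEv.vol (x * B.q g) l = _; rw [ih]; rfl

/-- Change of the gauge by an arbitrary potential. -/
def Ev.sub (E : Ev B F) (φ : Q → F) : Ev B F where
  e := fun x l => E.e x l - (φ (x * B.q l) - φ x)
  e_inv := fun x l => by rw [E.e_inv, B.q_inv, mul_inv_cancel_right]; ring

theorem Ev.sub_vol (E : Ev B F) (φ : Q → F) (x : Q) (l : List B.L) :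
    (E.sub φ).vol x l = E.vol x l - (φ (B.fin x l) - φ x) := by
  induction l generalizing x with
  | nil => show (0 : F) = 0 - (φ x - φ x); ring
  | cons g l ih =>
    show E.e x g - (φ (x * B.q g) - φ x) + (E.sub φ).vol (x * B.q g) l =
      E.e x g + E.vol (x * B.q g) l - (φ (B.fin (x * B.q g) l) - φ x)
    rw [ih]; ring

/-- The volume of one step up at `x`. -/
def Ev.wt (E : Ev B F) (U : Up B) (x : Q) : F := E.e x (U.up x)

/-- Straight pieces have volume zero. -/
theorem Ev.vol_str (E : Ev B F) (U : Up B) (h : ∀ x, E.e x (U.up x) = 0) (n : ℕ) (x : Q) :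
    E.vol x (U.str n x) = 0 := by
  induction n generalizing x with
  | zero => rfl
  | succ n ih =>
    show E.e x (U.up x) + E.vol (x * B.q (U.up x)) (U.str n (U.U x)) = 0
    rw [h, zero_add, ← U.hU, ih]

/-- Invariance under the left multiplication by `ζ`. -/
def Ev.Inv (E : Ev B F) (ζ : Q) : Prop := ∀ x l, E.e (ζ * x) l = E.e x l

theorem Ev.Inv.vol {E : Ev B F} {ζ : Q} (h : E.Inv ζ) (x : Q) (l : List B.L) : E.vol (ζ * x) l = E.vol x l := by
  induction l generalizing x with
  | nil => rfl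
  | cons g l ih =>
    show E.e (ζ * x) g + E.vol (ζ * x * B.q g) l = E.e x g + E.vol (x * B.q g) l
    rw [h, mul_assoc, ih]

theorem toEv_Inv (V : Vd B F) {ζ : Q} (h : V.chi ζ = 1) : V.toEv.Inv ζ := fun x l => by
  show V.chi (ζ * x) * V.n l = V.chi x * V.n l
  rw [map_mul, h, one_mul]

theorem Ev.Inv.sub {E : Ev B F} {ζ : Q} (h : E.Inv ζ) {φ : Q → F} (hφ : ∀ x, φ (ζ * x) = φ x) :
    (E.sub φ).Inv ζ := fun x l => by
  show E.e (ζ * x) l - (φ (ζ * x * B.q l) - φ (ζ * x)) = E.e x l - (φ (x * B.q l) - φ x)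
  rw [h, hφ, mul_assoc, hφ]

variable [DecidableEq Q]

/-- The volume of the extended cap. -/
theorem Ev.extnU_cap (E : Ev B F) (X : TW B) (U : Up B) (k : ℕ) :
    E.vol (X.extnU U k).w₀ (X.extnU U k).cap =
      E.vol X.w₀ X.cap - E.vol X.w₀ (U.str k X.w₀) + E.vol X.w₁ (U.str k X.w₁) := by
  induction k with
  | zero => show E.vol X.w₀ X.cap = E.vol X.w₀ X.cap - 0 + 0; ring
  | succ k ih =>
    obtain ⟨w0, w1⟩ := TW.extnU_w X U k
    have e1 : (X.extnU U (k + 1)).cap = B.inv (U.up (X.extnU U k).w₀) ::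
      ((X.extnU U k).cap ++ [U.up (X.extnU U k).w₁]) := rfl
    have e2 : (X.extnU U (k + 1)).w₀ = U.U (X.extnU U k).w₀ := rfl
    rw [e1, e2]
    show E.e (U.U (X.extnU U k).w₀) (B.inv (U.up (X.extnU U k).w₀)) +
      E.vol (U.U (X.extnU U k).w₀ * B.q (B.inv (U.up (X.extnU U k).w₀)))
        ((X.extnU U k).cap ++ [U.up (X.extnU U k).w₁]) = _
    rw [U.hU, B.q_inv, mul_inv_cancel_right, E.e_inv, E.vol_append, (X.extnU U k).cap_fin, ih, U.str_succ' k X.w₀,
      U.str_succ' k X.w₁, E.vol_append, E.vol_append, U.fin_str, U.fin_str, w0, w1]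
    set y := (U.U ^ k) X.w₀ with hy
    set y' := (U.U ^ k) X.w₁ with hy'
    show - E.e y (U.up y) + (_ + (E.e y' (U.up y') + 0)) =
      _ - (_ + (E.e y (U.up y) + 0)) + (_ + (E.e y' (U.up y') + 0))
    ring

/-- The difference of the volumes of two windows, weighted by `w` at the start of the token. -/
def dvolE (E : Ev B F) (w : Q → F) (X X' : TW B) : F :=
  ∑ x ∈ X.tok₀, w x * (E.vol x (X'.path x) - E.vol x (X.path x))

theorem dvolE_toEv (V : Vd B F) (w : Q → F) (X X' : TW B) : dvolE V.toEv w X X' = dvolw V w X X' := by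
  unfold dvolE dvolw
  refine Finset.sum_congr rfl fun x _ => ?_
  rw [toEv_vol, toEv_vol]

/-- Versions have the same difference in all gauges. -/
theorem dvolE_sub (E : Ev B F) (φ : Q → F) (w : Q → F) {U : Up B} {X X' : TW B} {n : ℕ} {xs : Q}
    (h : Ver U X X' n xs) : dvolE (E.sub φ) w X X' = dvolE E w X X' := by
  unfold dvolE
  refine Finset.sum_congr rfl fun x hx => ?_
  have h1 := TW.mem_tok₀.1 hx
  have hx' : x ∈ X'.tok₀ := by rw [h.tok₀]; exact hx
  have h2 := TW.mem_tok₀.1 hx'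
  rw [E.sub_vol, E.sub_vol, X.path_fin x h1.1 h1.2.1 h1.2.2, X'.path_fin x h2.1 h2.2.1 h2.2.2, h.fin hx]
  ring

end

end Pool.Agent.Lib.MP_688fd0_co.SQ4
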