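import Pool.Agent.Lib.MP_688fd0_co.SQ4.E.Vol

/-!
WORDS for edge volumes, part 1: one step (copy of `SQ3/Words.lean` with `Ev` in the place of `Vd`).
-/

set_option autoImplicit false

namespace Pool.Agent.Lib.MP_688fd0_co.SQ4

open Pool.Agent.Lib.MP_688fd0_co.OSF Pool.Agent.Lib.MP_688fd0_co.SQ2 Pool.Agent.Lib.MP_688fd0_co.SQ3
open SQ2.V (Puz)

universe u v w

variable {S R : Type} [Fintype S] [DecidableEq S] {P : Puz S R} {Q : Type u} [Group Q] [DecidableEq Q]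
  {B : Lb.{u, v} Q} {U : Up B} {Z : SQ3.Real P B U}

/-- One step: wait until level `t`, jump, gadget. -/
theorem stepE {X : TW B} {t₀ : ℕ} {r : R} (hX : Z.Ends X t₀ r) {r' : R} {v : S} (hadj : P.Adj r r' v) {t : ℕ}
    (ht₀ : t₀ ≤ t) (ht : t % Z.e = Z.lev r') :
    ∃ X' : TW B, X'.L₀ = X.L₀ ∧ X'.u₀ = X.u₀ ∧ X'.u₁ = X.u₁ ∧ X'.cup = X.cup ∧ X'.cap = (Z.gad r' t).cap ∧
      Z.Ends X' (t + Z.H r') (P.tau r') ∧
      X'.R = X.R + ∑ i ∈ Finset.Ico t₀ (t + Z.H r'), (Z.Fr i).val ∧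
      (∀ x s, ¬ P.On r s → X.f x = Z.vt s t₀ → X'.f x = Z.vt (P.T r' (P.J r r' v s)) (t + Z.H r')) ∧
      ∀ {F : Type w} [CommRing F] (V : Ev B F),
        (∀ x ∈ X.tok₀, ∀ s, ¬ P.On r s → X.f x = Z.vt s t₀ → V.vol x (X'.path x) = V.vol x (X.path x) +
          V.vol (Z.vt s t₀) (U.str (t - t₀) (Z.vt s t₀)) +
          (if s = P.oth r' v then
            (if v = P.x r' then - V.vol (Z.vt (P.x r') t) (Z.gad r' t).cup
              else V.vol (Z.vt (P.x r') t) (Z.gad r' t).cup) +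
            (if v = P.x r then V.vol X.w₀ X.cap - V.vol (Z.vt (P.x r) t₀) (U.str (t - t₀) (Z.vt (P.x r) t₀)) +
              V.vol (Z.vt (P.y r) t₀) (U.str (t - t₀) (Z.vt (P.y r) t₀))
              else -(V.vol X.w₀ X.cap - V.vol (Z.vt (P.x r) t₀) (U.str (t - t₀) (Z.vt (P.x r) t₀)) +
              V.vol (Z.vt (P.y r) t₀) (U.str (t - t₀) (Z.vt (P.y r) t₀)))) else 0) +
          V.vol (Z.vt (P.J r r' v s) t) ((Z.gad r' t).path (Z.vt (P.J r r' v s) t))) ∧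
        V.vol X'.w₀ X'.cap = V.vol (Z.gad r' t).w₀ (Z.gad r' t).cap := by
  obtain ⟨k, rfl⟩ : ∃ k, t = t₀ + k := ⟨t - t₀, by omega⟩
  have hk : t₀ + k - t₀ = k := by omega
  rw [hk]
  set t := t₀ + k with ht'
  -- the extended window
  set X₁ := X.extnU U k with hX₁
  have hE : Z.Ends X₁ t r := hX.ext k
  obtain ⟨d1, d2, d3, d4, d5, d6⟩ := TW.extnU_data X U k
  set Y := Z.gad r' t with hY
  have hYL₀ : Y.L₀ = Z.Fr t := Z.L₀ r' t ht
  have hYL₁ : Y.L₁ = Z.Fr (t + Z.H r') := Z.L₁ r' t ht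
  have hYu₀ : Y.u₀ = Z.vt (P.x r') t := Z.u₀ r' t ht
  have hYu₁ : Y.u₁ = Z.vt (P.y r') t := Z.u₁ r' t ht
  have hYw₀ : Y.w₀ = Z.vt (P.x (P.tau r')) (t + Z.H r') := Z.w₀ r' t ht
  have hYw₁ : Y.w₁ = Z.vt (P.y (P.tau r')) (t + Z.H r') := Z.w₁ r' t ht
  obtain ⟨hon, hon', hne⟩ := hadj
  -- the oriented windows
  obtain ⟨X₂, x1, x2, x3, x4, x5, x6, x7, x8, x9, x10, x11⟩ : ∃ X₂ : TW B, X₂.L₀ = X.L₀ ∧ X₂.L₁ = Z.Fr t ∧
      X₂.u₀ = X.u₀ ∧ X₂.u₁ = X.u₁ ∧ X₂.cup = X.cup ∧ X₂.w₀ = Z.vt v t ∧ X₂.w₁ = Z.vt (P.oth r v) t ∧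
      X₂.R = X₁.R ∧ (∀ x, X₂.f x = X₁.f x) ∧ (∀ x, X₂.path x = X₁.path x) ∧
      (∀ {F : Type w} [CommRing F] (V : Ev B F), V.vol X₂.w₀ X₂.cap =
        if v = P.x r then V.vol X₁.w₀ X₁.cap else - V.vol X₁.w₀ X₁.cap) := by
    by_cases h : v = P.x r
    · refine ⟨X₁, d1, hE.L₁, d2, d3, d4, by rw [hE.w₀, h], ?_, rfl, fun _ => rfl, fun _ => rfl, ?_⟩
      · rw [hE.w₁]; unfold Puz.oth; rw [if_pos h]
      · intro F _ V; rw [if_pos h]
    · have h2 : v = P.y r := by rcases hon with h1 | h1; exact absurd h1 h; exact h1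
      refine ⟨X₁.flipCap, d1, hE.L₁, d2, d3, d4, ?_, ?_, TW.flipCap_R _, fun _ => rfl, fun _ => rfl, ?_⟩
      · show X₁.w₁ = _; rw [hE.w₁, h2]
      · show X₁.w₀ = _; rw [hE.w₀]; unfold Puz.oth; rw [if_neg h]
      · intro F _ V
        rw [if_neg h]
        show V.vol X₁.w₁ (B.rev X₁.cap) = _
        conv_lhs => rw [← X₁.cap_fin]
        exact V.vol_rev _ _
  obtain ⟨Y₂, y1, y2, y3, y4, y5, y6, y7, y8, y9, y10, y11⟩ : ∃ Y₂ : TW B, Y₂.L₀ = Z.Fr t ∧ Y₂.L₁ = Y.L₁ ∧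
      Y₂.w₀ = Y.w₀ ∧ Y₂.w₁ = Y.w₁ ∧ Y₂.cap = Y.cap ∧ Y₂.u₀ = Z.vt (P.oth r' v) t ∧ Y₂.u₁ = Z.vt v t ∧
      Y₂.R = Y.R ∧ (∀ x, Y₂.f x = Y.f x) ∧ (∀ x, Y₂.path x = Y.path x) ∧
      (∀ {F : Type w} [CommRing F] (V : Ev B F), V.vol Y₂.u₀ Y₂.cup =
        if v = P.x r' then - V.vol (Z.vt (P.x r') t) Y.cup else V.vol (Z.vt (P.x r') t) Y.cup) := by
    by_cases h : v = P.x r'
    · refine ⟨Y.flipCup, hYL₀, rfl, rfl, rfl, rfl, ?_, ?_, TW.flipCup_R _, fun _ => rfl, fun _ => rfl, ?_⟩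
      · show Y.u₁ = _; rw [hYu₁]; unfold Puz.oth; rw [if_pos h]
      · show Y.u₀ = _; rw [hYu₀, h]
      · intro F _ V
        rw [if_pos h]
        show V.vol Y.u₁ (B.rev Y.cup) = _
        conv_lhs => rw [← Y.cup_fin]
        rw [V.vol_rev _ _, hYu₀]
    · have h2 : v = P.y r' := by rcases hon' with h1 | h1; exact absurd h1 h; exact h1
      refine ⟨Y, hYL₀, rfl, rfl, rfl, rfl, ?_, ?_, rfl, fun _ => rfl, fun _ => rfl, ?_⟩
      · rw [hYu₀]; unfold Puz.oth; rw [if_neg h]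
      · rw [hYu₁, h2]
      · intro F _ V; rw [if_neg h, hYu₀]
  have c1 : X₂.L₁ = Y₂.L₀ := by rw [x2, y1]
  have c2 : X₂.w₀ = Y₂.u₁ := by rw [x6, y7]
  have c3 : X₂.w₁ ≠ Y₂.u₀ := by rw [x7, y6]; exact fun h => hne (Z.vt_inj h)
  have hpos : ∀ x s, ¬ P.On r s → X.f x = Z.vt s t₀ →
      TW.jump X₂ Y₂ (X₂.f x) = Z.vt (P.J r r' v s) t := by
    intro x s hs hx
    have h1 : X₂.f x = Z.vt s t := by rw [x9, d5, hx, ht', Z.vt_add]
    unfold TW.jump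
    rw [h1, y6, x7]
    have hs2 : s ≠ P.oth r v := by
      intro h
      apply hs
      rw [h]
      unfold Puz.oth Puz.On
      by_cases hv : v = P.x r
      · rw [if_pos hv]; exact Or.inr rfl
      · rw [if_neg hv]; exact Or.inl rfl
    by_cases h : s = P.oth r' v
    · rw [if_pos (by rw [h])]
      unfold Puz.J
      rw [h, Equiv.swap_apply_left]
    · rw [if_neg (fun h' => h (Z.vt_inj h'))]
      unfold Puz.J
      rw [Equiv.swap_apply_of_ne_of_ne h hs2]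
  refine ⟨X₂.comp Y₂ c1 c2 c3, x1, x3, x4, x5, y5, ⟨?_, ?_, ?_⟩, ?_, ?_, ?_⟩
  · show Y₂.L₁ = _; rw [y2, hYL₁]
  · show Y₂.w₀ = _; rw [y3, hYw₀]
  · show Y₂.w₁ = _; rw [y4, hYw₁]
  · rw [TW.comp_R, x8, y8, hX₁, hX.ext_R k, hY, Z.reg r' t ht, add_assoc]
    congr 1
    exact Finset.sum_Ico_consecutive _ (by omega) (by omega)
  · intro x s hs hx
    show Y₂.f (TW.jump X₂ Y₂ (X₂.f x)) = _
    rw [hpos x s hs hx, y9]
    refine Z.f r' t ht _ ?_
    -- the new position is not an end of r'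
    intro hon2
    have hs2 : s ≠ P.oth r v := by
      intro h
      apply hs
      rw [h]
      unfold Puz.oth Puz.On
      by_cases hv : v = P.x r
      · rw [if_pos hv]; exact Or.inr rfl
      · rw [if_neg hv]; exact Or.inl rfl
    have hsv : s ≠ v := fun h => hs (by rw [h]; exact hon)
    have honc : ∀ u, P.On r' u → u = v ∨ u = P.oth r' v := by
      intro u hu
      unfold Puz.oth
      by_cases hv : v = P.x r'
      · rw [if_pos hv]
        rcases hu with hu | hu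
        · left; rw [hu, hv]
        · right; exact hu
      · rw [if_neg hv]
        have h2 : v = P.y r' := by rcases hon' with h1 | h1; exact absurd h1 hv; exact h1
        rcases hu with hu | hu
        · right; exact hu
        · left; rw [hu, h2]
    have hov : P.oth r v ≠ v := by
      unfold Puz.oth
      by_cases hv : v = P.x r
      · rw [if_pos hv, hv]; exact (P.ne r).symm
      · rw [if_neg hv]; exact fun h => hv h.symm
    by_cases h : s = P.oth r' v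
    · unfold Puz.J at hon2
      rw [h, Equiv.swap_apply_left] at hon2
      rcases honc _ hon2 with h3 | h3
      · exact hov h3
      · exact hne h3
    · unfold Puz.J at hon2
      rw [Equiv.swap_apply_of_ne_of_ne h hs2] at hon2
      rcases honc _ hon2 with h3 | h3
      · exact hsv h3
      · exact h h3
  · intro F _ V
    refine ⟨?_, ?_⟩
    · intro x hx s hs hxs
      show V.vol x (X₂.path x ++ (TW.jumpl X₂ Y₂ (X₂.f x) ++ Y₂.path (TW.jump X₂ Y₂ (X₂.f x)))) = _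
      have hxm := TW.mem_tok₀.1 hx
      have hfin : B.fin x (X₂.path x) = X₂.f x := by
        refine X₂.path_fin x (x1 ▸ hxm.1) (x3 ▸ hxm.2.1) (x4 ▸ hxm.2.2)
      have h1 : X₂.f x = Z.vt s t := by rw [x9, d5, hxs, ht', Z.vt_add]
      rw [V.vol_append, V.vol_append, hfin, TW.jump_fin X₂ Y₂ c2, hpos x s hs hxs, y10, x10, d6, V.vol_append,
        X.path_fin x hxm.1 hxm.2.1 hxm.2.2, hxs, ← add_assoc]
      congr 1
      congr 1
      unfold TW.jumpl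
      rw [h1, y6]
      by_cases h : s = P.oth r' v
      · rw [if_pos (by rw [h]), if_pos h, V.vol_append]
        have e1 : V.vol (Z.vt s t) Y₂.cup = V.vol Y₂.u₀ Y₂.cup := by rw [y6, h]
        have e2 : B.fin (Z.vt s t) Y₂.cup = X₂.w₀ := by rw [c2, ← Y₂.cup_fin, y6, h]
        rw [e1, e2, y11 V, x11 V, hX₁, V.extnU_cap X U k, hX.w₀, hX.w₁]
      · rw [if_neg (fun h' => h (Z.vt_inj h')), if_neg h]
        rfl
    · show V.vol Y₂.w₀ Y₂.cap = _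
      rw [y3, y5]

end Pool.Agent.Lib.MP_688fd0_co.SQ4
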