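import Pool.Agent.Lib.MP_688fd0_co.SQ4.E.Words
import Pool.Agent.Lib.MP_688fd0_co.SQ3.Words2

/-!
WORDS for edge volumes, part 2 (copy of `SQ3/Words2.lean`).
-/

set_option autoImplicit false

namespace Pool.Agent.Lib.MP_688fd0_co.SQ4

open Pool.Agent.Lib.MP_688fd0_co.OSF Pool.Agent.Lib.MP_688fd0_co.SQ2 Pool.Agent.Lib.MP_688fd0_co.SQ3
open SQ2.V (Puz)
open SQ2.V.Puz (St)
open SQ3.Real (endT_append endT_sh)

universe u v w

variable {S R : Type} [Fintype S] [DecidableEq S] {P : Puz S R} {Q : Type u} [Group Q] [DecidableEq Q]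
  {B : Lb.{u, v} Q} {U : Up B} (Z : SQ3.Real P B U)

/-- Volumes: drifts `gg t * om s` of the strands, voltages of the cups and of the caps, volumes of the paths. -/
structure VDE {F : Type w} [CommRing F] (V : Ev B F) where
  gg : ℕ → F
  om : S → F
  cu : R → F
  ca : R → F
  th : R → S → F
  h_om : ∀ s t k, V.vol (Z.vt s t) (U.str k (Z.vt s t)) = (gg (t + k) - gg t) * om s
  h_cu : ∀ r t, t % Z.e = Z.lev r → V.vol (Z.vt (P.x r) t) (Z.gad r t).cup = cu r
  h_ca : ∀ r t, t % Z.e = Z.lev r → V.vol (Z.gad r t).w₀ (Z.gad r t).cap = ca r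
  h_th : ∀ r t s, t % Z.e = Z.lev r → ¬ P.On r s → V.vol (Z.vt s t) ((Z.gad r t).path (Z.vt s t)) = th r s

variable {Z}

section cost

variable {F : Type w} [CommRing F] {V : Ev B F} (D : VDE Z V) {Tok : Type} [Fintype Tok] (d : Tok → F)

/-- The cost of a timed letter for a token at the strand `L`; `c` is the voltage of the cap. -/
def tcE (c : F) (t₀ : ℕ) (r : R) (x : TL S R) (L : S) : F :=
  (D.gg x.t - D.gg t₀) * D.om L +
    (if L = P.oth x.r x.v then
      (if x.v = P.x x.r then - D.cu x.r else D.cu x.r) +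
      (if x.v = P.x r then c - (D.gg x.t - D.gg t₀) * D.om (P.x r) + (D.gg x.t - D.gg t₀) * D.om (P.y r)
        else -(c - (D.gg x.t - D.gg t₀) * D.om (P.x r) + (D.gg x.t - D.gg t₀) * D.om (P.y r))) else 0) +
    D.th x.r (P.J r x.r x.v L)

/-- The weighted cost of a timed letter. -/
def wcE (c : F) (t₀ : ℕ) (s : St S R Tok) (x : TL S R) : F := ∑ i, d i * tcE D c t₀ s.1 x (s.2 i)

/-- The weighted cost of a timed wordE. -/
def wcsE : F → ℕ → St S R Tok → List (TL S R) → F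
  | _, _, _, [] => 0
  | c, t₀, s, x :: l => wcE D d c t₀ s x + wcsE (D.ca x.r) (x.t + Z.H x.r) (P.step x.r x.v s) l

/-- The voltage of the last cap. -/
def capX : F → List (TL S R) → F
  | c, [] => c
  | _, x :: l => capX (D.ca x.r) l

theorem capX_append (c : F) (l l' : List (TL S R)) : capX D c (l ++ l') = capX D (capX D c l) l' := by
  induction l generalizing c with
  | nil => rfl
  | cons x l ih => exact ih _

theorem capX_sh (k : ℕ) (c : F) (l : List (TL S R)) : capX D c (l.map (TL.sh k)) = capX D c l := by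
  induction l generalizing c with
  | nil => rfl
  | cons x l ih => exact ih _

theorem wcsE_append (c : F) (t₀ : ℕ) (s : St S R Tok) (l l' : List (TL S R)) :
    wcsE D d c t₀ s (l ++ l') = wcsE D d c t₀ s l + wcsE D d (capX D c l) (Z.endT t₀ l) (runT P l s) l' := by
  induction l generalizing c t₀ s with
  | nil => show wcsE D d c t₀ s l' = 0 + _; rw [zero_add]; rfl
  | cons x l ih =>
    show wcE D d c t₀ s x + wcsE D d _ _ _ (l ++ l') = wcE D d c t₀ s x + wcsE D d _ _ _ l + _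
    rw [ih, add_assoc]; rfl

theorem wcsE_sh {k : ℕ} {G : F} (hG : ∀ t, D.gg (t + k) = D.gg t + G) (c : F) (t₀ : ℕ) (s : St S R Tok)
    (l : List (TL S R)) :
    wcsE D d c (t₀ + k) s (l.map (TL.sh k)) = wcsE D d c t₀ s l := by
  induction l generalizing c t₀ s with
  | nil => rfl
  | cons x l ih =>
    show wcE D d c (t₀ + k) s (TL.sh k x) + wcsE D d (D.ca x.r) (x.t + k + Z.H x.r) (P.step x.r x.v s)
      (l.map (TL.sh k)) = _
    rw [show x.t + k + Z.H x.r = x.t + Z.H x.r + k by omega, ih]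
    show _ = wcE D d c t₀ s x + _
    congr 1
    unfold wcE tcE TL.sh
    simp only [hG, add_sub_add_right_eq_sub]

/-- The rate at which waiting before the step `(r', v)` costs. -/
def GamE (s : St S R Tok) (r' : R) (v : S) : F :=
  ∑ i, d i * (D.om (s.2 i) + if s.2 i = P.oth r' v then D.om (P.oth s.1 v) - D.om v else 0)

/-- Longer waiting, for one token. -/
theorem tcE_wait {k : ℕ} {G : F} (hG : ∀ t, D.gg (t + k) = D.gg t + G) (c : F) (t₀ : ℕ) (r : R) (x : TL S R)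
    (hx : P.Adj r x.r x.v) (L : S) :
    tcE D c t₀ r (TL.sh k x) L = tcE D c t₀ r x L +
      G * (D.om L + if L = P.oth x.r x.v then D.om (P.oth r x.v) - D.om x.v else 0) := by
  obtain ⟨xr, xv, xt⟩ := x
  simp only at hx ⊢
  unfold tcE TL.sh
  simp only [hG]
  by_cases h : L = P.oth xr xv
  · rw [if_pos h, if_pos h, if_pos h]
    by_cases hv : xv = P.x r
    · rw [if_pos hv, if_pos hv]
      have e3 : P.oth r xv = P.y r := by unfold Puz.oth; rw [if_pos hv]
      rw [e3, ← hv]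
      ring
    · have hv2 : xv = P.y r := by rcases hx.1 with h' | h'; exact absurd h' hv; exact h'
      rw [if_neg hv, if_neg hv]
      have e3 : P.oth r xv = P.x r := by unfold Puz.oth; rw [if_neg hv]
      rw [e3, ← hv2]
      ring
  · rw [if_neg h, if_neg h, if_neg h]
    ring

/-- Longer waiting before a wordE. -/
theorem wcsE_wait {k : ℕ} {G : F} (hG : ∀ t, D.gg (t + k) = D.gg t + G) (c : F) (t₀ : ℕ) (s : St S R Tok) (x : TL S R)
    (l : List (TL S R)) (hx : P.Adj s.1 x.r x.v) :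
    wcsE D d c t₀ s ((x :: l).map (TL.sh k)) = wcsE D d c t₀ s (x :: l) + G * GamE D d s x.r x.v := by
  have h1 := wcsE_sh D d hG (D.ca x.r) (x.t + Z.H x.r) (P.step x.r x.v s) l
  show wcE D d c t₀ s (TL.sh k x) + wcsE D d (D.ca x.r) (x.t + k + Z.H x.r) (P.step x.r x.v s)
    (l.map (TL.sh k)) = wcE D d c t₀ s x + wcsE D d _ _ _ l + _
  rw [show x.t + k + Z.H x.r = x.t + Z.H x.r + k by omega, h1]
  have h2 : wcE D d c t₀ s (TL.sh k x) = wcE D d c t₀ s x + G * GamE D d s x.r x.v := by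
    unfold wcE GamE
    rw [Finset.mul_sum, ← Finset.sum_add_distrib]
    refine Finset.sum_congr rfl fun i _ => ?_
    rw [tcE_wait D hG c t₀ s.1 x hx]
    ring
  rw [h2]; ring

end cost

/-- WORDS: a valid timed wordE extends a window. -/
theorem wordE {Tok : Type} (k : Tok → Q) (l : List (TL S R)) : ∀ (X : TW B) (t₀ : ℕ) (s : St S R Tok),
    Z.Ends X t₀ s.1 → (∀ i, k i ∈ X.tok₀ ∧ ¬ P.On s.1 (s.2 i) ∧ X.f (k i) = Z.vt (s.2 i) t₀) → Z.Val t₀ s.1 l →
    ∃ X' : TW B, X'.L₀ = X.L₀ ∧ X'.u₀ = X.u₀ ∧ X'.u₁ = X.u₁ ∧ X'.cup = X.cup ∧ X'.cap = Z.lcap X.cap l ∧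
      Z.Ends X' (Z.endT t₀ l) (runT P l s).1 ∧ t₀ ≤ Z.endT t₀ l ∧
      X'.R = X.R + ∑ i ∈ Finset.Ico t₀ (Z.endT t₀ l), (Z.Fr i).val ∧
      (∀ i, ¬ P.On (runT P l s).1 ((runT P l s).2 i) ∧ X'.f (k i) = Z.vt ((runT P l s).2 i) (Z.endT t₀ l)) ∧
      ∀ {F : Type w} [CommRing F] [Fintype Tok] (V : Ev B F) (D : VDE Z V) (d : Tok → F),
        ∑ i, d i * V.vol (k i) (X'.path (k i)) = ∑ i, d i * V.vol (k i) (X.path (k i)) +
          wcsE D d (V.vol X.w₀ X.cap) t₀ s l ∧
        V.vol X'.w₀ X'.cap = capX D (V.vol X.w₀ X.cap) l := by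
  induction l with
  | nil =>
    intro X t₀ s hX hk _
    refine ⟨X, rfl, rfl, rfl, rfl, rfl, hX, le_rfl, ?_, fun i => ⟨(hk i).2.1, (hk i).2.2⟩, ?_⟩
    · show X.R = X.R + ∑ i ∈ Finset.Ico t₀ t₀, (Z.Fr i).val
      rw [Finset.Ico_self, Finset.sum_empty, add_zero]
    · intro F _ _ V D d
      exact ⟨(add_zero _).symm, rfl⟩
  | cons x l ih =>
    intro X t₀ s hX hk hl
    obtain ⟨hadj, ht₀, ht, hl⟩ := hl
    obtain ⟨X₁, e1, e2, e3, e4, ec, e5, e6, e7, e8⟩ := stepE.{u, v, w} hX hadj ht₀ ht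
    have htok : X₁.tok₀ = X.tok₀ := by unfold TW.tok₀; rw [e1, e2, e3]
    have hk1 : ∀ i, k i ∈ X₁.tok₀ ∧ ¬ P.On (P.step x.r x.v s).1 ((P.step x.r x.v s).2 i) ∧
        X₁.f (k i) = Z.vt ((P.step x.r x.v s).2 i) (x.t + Z.H x.r) := by
      intro i
      obtain ⟨h1, h2, h3⟩ := hk i
      exact ⟨htok ▸ h1, not_on_step hadj h2, e7 _ _ h2 h3⟩
    obtain ⟨X', f1, f2, f3, f4, fc, f5, f6, f7, f8, f9⟩ := ih X₁ (x.t + Z.H x.r) (P.step x.r x.v s) e5 hk1 hl
    refine ⟨X', f1.trans e1, f2.trans e2, f3.trans e3, f4.trans e4, by rw [fc, ec]; rfl, f5,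
      le_trans (by omega) f6, ?_, f8, ?_⟩
    · rw [f7, e6, add_assoc]
      congr 1
      exact Finset.sum_Ico_consecutive _ (by omega) f6
    · intro F _ _ V D d
      obtain ⟨g1, g2⟩ := f9 V D d
      have hst : ∀ i, V.vol (k i) (X₁.path (k i)) = V.vol (k i) (X.path (k i)) +
          tcE D (V.vol X.w₀ X.cap) t₀ s.1 x (s.2 i) := by
        intro i
        obtain ⟨h1, h2, h3⟩ := hk i
        have h4 := (e8 V).1 (k i) h1 (s.2 i) h2 h3
        have ht1 : t₀ + (x.t - t₀) = x.t := by omega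
        rw [h4, D.h_om, D.h_om, D.h_om, ht1, D.h_cu _ _ ht, D.h_th _ _ _ ht (not_on_J hadj h2)]
        unfold tcE
        ring
      have hcap : V.vol X₁.w₀ X₁.cap = D.ca x.r := by rw [(e8 V).2, D.h_ca _ _ ht]
      constructor
      · rw [g1, hcap]
        show _ = _ + (wcE D d _ t₀ s x + wcsE D d (D.ca x.r) _ _ l)
        rw [← add_assoc]
        congr 1
        unfold wcE
        rw [← Finset.sum_add_distrib]
        refine Finset.sum_congr rfl fun i _ => ?_
        rw [hst, mul_add]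
      · rw [g2, hcap]; rfl

end Pool.Agent.Lib.MP_688fd0_co.SQ4
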