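import Pool.Agent.Lib.MP_688fd0_co.SQ4.E.Words2
import Pool.Agent.Lib.MP_688fd0_co.SQ3.Words3

/-!
WORDS for edge volumes, part 3 (copy of `SQ3/Words3.lean`).
-/

set_option autoImplicit false

namespace Pool.Agent.Lib.MP_688fd0_co.SQ4

open Pool.Agent.Lib.MP_688fd0_co.OSF Pool.Agent.Lib.MP_688fd0_co.SQ2 Pool.Agent.Lib.MP_688fd0_co.SQ3
open SQ2.V (Puz)
open SQ2.V.Puz (St)
open SQ3.Real (endT_append endT_sh cx extn_capl cupF capF)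

universe u v w

variable {S R : Type} [Fintype S] [DecidableEq S] {P : Puz S R} {Q : Type u} [Group Q] [DecidableEq Q]
  {B : Lb.{u, v} Q} {U : Up B} {Z : SQ3.Real P B U}

/-- The first gadget. -/
theorem startE (f : R) {v : S} (hv : P.On f v) {t₀ : ℕ} (ht : t₀ % Z.e = Z.lev f) :
    ∃ X : TW B, X.L₀ = Z.Fr t₀ ∧ X.u₀ = Z.vt (P.oth f v) t₀ ∧ X.u₁ = Z.vt v t₀ ∧
      X.cup = cupF Z f v t₀ ∧ X.cap = (Z.gad f t₀).cap ∧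
      Z.Ends X (t₀ + Z.H f) (P.tau f) ∧ X.R = ∑ i ∈ Finset.Ico t₀ (t₀ + Z.H f), (Z.Fr i).val ∧
      (∀ i : P.TokOf f, Z.vt i.1 t₀ ∈ X.tok₀ ∧ X.f (Z.vt i.1 t₀) = Z.vt (P.T f i.1) (t₀ + Z.H f)) ∧
      ∀ {F : Type w} [CommRing F] (V : Ev B F) (D : VDE Z V),
        (∀ i : P.TokOf f, V.vol (Z.vt i.1 t₀) (X.path (Z.vt i.1 t₀)) = D.th f i.1) ∧
        V.vol X.w₀ X.cap = D.ca f := by
  have hL₀ : (Z.gad f t₀).L₀ = Z.Fr t₀ := Z.L₀ f t₀ ht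
  have hu₀ : (Z.gad f t₀).u₀ = Z.vt (P.x f) t₀ := Z.u₀ f t₀ ht
  have hu₁ : (Z.gad f t₀).u₁ = Z.vt (P.y f) t₀ := Z.u₁ f t₀ ht
  have htok : ∀ i : P.TokOf f, Z.vt i.1 t₀ ∈ (Z.gad f t₀).tok₀ := by
    intro i
    rw [TW.mem_tok₀, hL₀, hu₀, hu₁]
    refine ⟨Z.vt_mem _ _, fun h => i.2 (Or.inl (Z.vt_inj h)), fun h => i.2 (Or.inr (Z.vt_inj h))⟩
  have hne := P.ne f
  by_cases h : v = P.x f
  · have ho : P.oth f v = P.y f := by unfold Puz.oth; rw [if_pos h]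
    refine ⟨(Z.gad f t₀).flipCup, hL₀, ?_, ?_, ?_, rfl, ⟨Z.L₁ f t₀ ht, Z.w₀ f t₀ ht, Z.w₁ f t₀ ht⟩, ?_, ?_, ?_⟩
    · show (Z.gad f t₀).u₁ = _; rw [hu₁, ho]
    · show (Z.gad f t₀).u₀ = _; rw [hu₀, h]
    · unfold cupF; rw [if_pos h]; rfl
    · rw [TW.flipCup_R]; exact Z.reg f t₀ ht
    · intro i
      refine ⟨?_, Z.f f t₀ ht _ i.2⟩
      have h1 := TW.mem_tok₀.1 (htok i)
      exact TW.mem_tok₀.2 ⟨h1.1, h1.2.2, h1.2.1⟩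
    · intro F _ V D
      exact ⟨fun i => D.h_th _ _ _ ht i.2, D.h_ca _ _ ht⟩
  · have h2 : v = P.y f := by rcases hv with h1 | h1; exact absurd h1 h; exact h1
    have ho : P.oth f v = P.x f := by unfold Puz.oth; rw [if_neg h]
    refine ⟨Z.gad f t₀, hL₀, ?_, ?_, ?_, rfl, ⟨Z.L₁ f t₀ ht, Z.w₀ f t₀ ht, Z.w₁ f t₀ ht⟩, Z.reg f t₀ ht, ?_, ?_⟩
    · rw [hu₀, ho]
    · rw [hu₁, h2]
    · unfold cupF; rw [if_neg h]
    · intro i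
      exact ⟨htok i, Z.f f t₀ ht _ i.2⟩
    · intro F _ V D
      exact ⟨fun i => D.h_th _ _ _ ht i.2, D.h_ca _ _ ht⟩

/-- FLAT: a wordE from the post-state of `f` to the pre-state of `f` with the cap `g` is a flatE window. -/
theorem flatE (f g : R) (v : S) (hfg : P.Adj g f v) {t₀ : ℕ} (ht : t₀ % Z.e = Z.lev f) (l : List (TL S R))
    (hl : Z.Val (t₀ + Z.H f) (P.tau f) l) (hs : runT P l (P.st₁ f) = P.stb f g v) {T : ℕ}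
    (hT : Z.endT (t₀ + Z.H f) l ≤ T) (hT0 : t₀ < T) :
    ∃ X : TW B, X.L₀ = Z.Fr t₀ ∧ X.u₀ = Z.vt (P.oth f v) t₀ ∧ X.u₁ = Z.vt v t₀ ∧
      X.cup = cupF Z f v t₀ ∧
      X.cap = capF Z g v (Z.lcap (Z.gad f t₀).cap l) (Z.endT (t₀ + Z.H f) l) (T - Z.endT (t₀ + Z.H f) l) ∧
      Flat U X (T - t₀) (Z.vt (P.oth g v) t₀) ∧
      ∀ {F : Type w} [CommRing F] (V : Ev B F) (D : VDE Z V) (d : P.TokOf f → F),
        ∑ i : P.TokOf f, d i * V.vol (Z.vt i.1 t₀) (X.path (Z.vt i.1 t₀)) =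
          ∑ i : P.TokOf f, d i * D.th f i.1 + wcsE D d (D.ca f) (t₀ + Z.H f) (P.st₁ f) l +
          (D.gg T - D.gg (Z.endT (t₀ + Z.H f) l)) * ∑ i : P.TokOf f, d i * D.om ((P.stb f g v).2 i) := by
  obtain ⟨X₀, a1, a2, a3, acu, aca, a4, a5, a6, a7⟩ := startE.{u, v, w} (Z := Z) f hfg.2.1 ht
  obtain ⟨X₁, b1, b2, b3, b4, bca, b5, b6, b7, b8, b9⟩ := wordE.{u, v, w} (fun i : P.TokOf f => Z.vt i.1 t₀) l X₀
    (t₀ + Z.H f) (P.st₁ f) a4 (fun i => ⟨(a6 i).1, by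
      show ¬ P.On (P.tau f) (P.T f i.1)
      rw [SQ2.V.Puz.on_tau]; exact i.2, (a6 i).2⟩) hl
  rw [hs] at b5 b8
  set T₁ := Z.endT (t₀ + Z.H f) l with hT₁
  obtain ⟨k, rfl⟩ : ∃ k, T = T₁ + k := ⟨T - T₁, by omega⟩
  obtain ⟨d1, d2, d3, d4, d5, d6⟩ := TW.extnU_data X₁ U k
  have hE := b5.ext k
  have hR : (X₁.extnU U k).R = ∑ i ∈ Finset.range (T₁ + k - t₀), (im (U.U ^ i) (Z.Fr t₀)).val := by
    rw [b5.ext_R k, b7, a5, Finset.sum_Ico_consecutive _ (by omega) b6, Finset.sum_Ico_consecutive _ (by omega)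
      (by omega), Finset.sum_Ico_eq_sum_range]
    refine Finset.sum_congr rfl fun i _ => ?_
    rw [Z.im_Fr]
  -- orientation of the cap
  obtain ⟨X, c1, c2, c3, c4, c5, c6, c7, c8, c9, c10, c11⟩ : ∃ X : TW B, X.L₀ = X₁.L₀ ∧ X.L₁ = Z.Fr (T₁ + k) ∧
      X.u₀ = X₁.u₀ ∧ X.u₁ = X₁.u₁ ∧ X.cup = X₁.cup ∧ X.w₀ = Z.vt v (T₁ + k) ∧
      X.w₁ = Z.vt (P.oth g v) (T₁ + k) ∧
      X.R = (X₁.extnU U k).R ∧ (∀ x, X.f x = (X₁.extnU U k).f x) ∧ (∀ x, X.path x = (X₁.extnU U k).path x) ∧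
      X.cap = capF Z g v X₁.cap T₁ k := by
    have hon := hfg.1
    by_cases h : v = P.x g
    · refine ⟨X₁.extnU U k, d1, hE.L₁, d2, d3, d4, by rw [hE.w₀, h]; rfl, ?_, rfl, fun _ => rfl, fun _ => rfl, ?_⟩
      · rw [hE.w₁]; unfold Puz.oth; rw [if_pos h]; rfl
      · unfold capF; rw [if_pos h, extn_capl, b5.w₀, b5.w₁]; rfl
    · have h2 : v = P.y g := by rcases hon with h1 | h1; exact absurd h1 h; exact h1
      refine ⟨(X₁.extnU U k).flipCap, d1, hE.L₁, d2, d3, d4, ?_, ?_, TW.flipCap_R _, fun _ => rfl, fun _ => rfl, ?_⟩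
      · show (X₁.extnU U k).w₁ = _; rw [hE.w₁, h2]; rfl
      · show (X₁.extnU U k).w₀ = _; rw [hE.w₀]; unfold Puz.oth; rw [if_neg h]; rfl
      · unfold capF
        show B.rev (X₁.extnU U k).cap = _
        rw [if_neg h, extn_capl, b5.w₀, b5.w₁]; rfl
  have e0 : X.L₀ = Z.Fr t₀ := c1.trans (b1.trans a1)
  have eu₀ : X.u₀ = Z.vt (P.oth f v) t₀ := c3.trans (b2.trans a2)
  have eu₁ : X.u₁ = Z.vt v t₀ := c4.trans (b3.trans a3)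
  have hT2 : t₀ + (T₁ + k - t₀) = T₁ + k := by omega
  have htok : ∀ x, x ∈ X.tok₀ → ∃ i : P.TokOf f, Z.vt i.1 t₀ = x := by
    intro x hx
    rw [TW.mem_tok₀, e0, eu₀, eu₁] at hx
    obtain ⟨s, hs⟩ := Z.mem_Fr.1 hx.1
    refine ⟨⟨s, fun hon => ?_⟩, hs⟩
    rw [SQ2.V.Puz.on_iff hfg.2.1] at hon
    rcases hon with h1 | h1
    · exact hx.2.2 (by rw [← hs, h1])
    · exact hx.2.1 (by rw [← hs, h1])
  have htok' : ∀ i : P.TokOf f, Z.vt i.1 t₀ ∈ X.tok₀ := by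
    intro i
    have h1 := (a6 i).1
    rw [TW.mem_tok₀] at h1 ⊢
    rw [e0, eu₀, eu₁, ← a1, ← a2, ← a3]
    exact h1
  have hf : ∀ i : P.TokOf f, X.f (Z.vt i.1 t₀) = Z.vt ((P.stb f g v).2 i) (T₁ + k) := by
    intro i
    rw [c9, d5, (b8 i).2, ← Z.vt_add]
  have hxs : ¬ P.On f (P.oth g v) := hfg.not_on
  refine ⟨X, e0, eu₀, eu₁, by rw [c5, b4, acu], by rw [c11, bca, aca, Nat.add_sub_cancel_left],
    ⟨by omega, ?_, ?_, ?_, ?_, ?_, ?_, ?_⟩, ?_⟩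
  · rw [c2, e0, Z.im_Fr, hT2]
  · rw [c8, hR, e0]
  · exact htok' ⟨_, hxs⟩
  · rw [c6, eu₁, ← Z.vt_add, hT2]
  · rw [c7, ← Z.vt_add, hT2]
  · have := hf ⟨_, hxs⟩
    rw [this, eu₀, ← Z.vt_add, hT2]
    unfold SQ2.V.Puz.stb
    simp
  · intro x hx hne
    obtain ⟨i, rfl⟩ := htok x hx
    rw [hf i, ← Z.vt_add, hT2]
    unfold SQ2.V.Puz.stb
    have h1 : i.1 ≠ P.oth g v := fun h => hne (by rw [h])
    simp [h1]
  · intro F _ V D d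
    obtain ⟨g1, g3⟩ := a7 V D
    obtain ⟨h1, h2⟩ := b9 V D d
    have e1 : ∀ i : P.TokOf f, V.vol (Z.vt i.1 t₀) (X.path (Z.vt i.1 t₀)) =
        V.vol (Z.vt i.1 t₀) (X₁.path (Z.vt i.1 t₀)) +
        (D.gg (T₁ + k) - D.gg T₁) * D.om ((P.stb f g v).2 i) := by
      intro i
      have hm := TW.mem_tok₀.1 (htok' i)
      rw [c1, c3, c4] at hm
      rw [c10, d6, V.vol_append, X₁.path_fin _ hm.1 hm.2.1 hm.2.2, (b8 i).2, D.h_om]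
    rw [Finset.sum_congr rfl fun i _ => by rw [e1 i, mul_add], Finset.sum_add_distrib, h1, g3]
    congr 1
    · congr 1
      refine Finset.sum_congr rfl fun i _ => by rw [g1 i]
    · rw [Finset.mul_sum]
      refine Finset.sum_congr rfl fun i _ => by ring

end Pool.Agent.Lib.MP_688fd0_co.SQ4
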