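import Pool.Agent.Lib.MP_688fd0_co.SQ4.E.Words3
import Pool.Agent.Lib.MP_688fd0_co.SQ3.Words4

/-!
WORDS for edge volumes, part 4 (copy of `SQ3/Words4.lean`).
-/

set_option autoImplicit false

namespace Pool.Agent.Lib.MP_688fd0_co.SQ4

open Pool.Agent.Lib.MP_688fd0_co.OSF Pool.Agent.Lib.MP_688fd0_co.SQ2 Pool.Agent.Lib.MP_688fd0_co.SQ3
open SQ2.V (Puz)
open SQ2.V.Puz (St)
open SQ3.Real (endT_append endT_sh cx extn_capl cupF capF val_timed val_le val_append runT_timed WData sum_tok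
  lcap_append)

universe u v w

variable {S R : Type} [Fintype S] [DecidableEq S] {P : Puz S R} {Q : Type u} [Group Q] [DecidableEq Q]
  {B : Lb.{u, v} Q} {U : Up B} {Z : SQ3.Real P B U}

/-! ### Two versions -/

section cost

variable {F : Type w} [CommRing F] {V : Ev B F} (D : VDE Z V) {Tok : Type} [Fintype Tok] (d : Tok → F)

theorem tcE_t (c : F) (t₁ t₂ : ℕ) (r : R) (x : TL S R) (hx : P.Adj r x.r x.v) (L : S) :
    tcE D c t₁ r x L = tcE D c t₂ r x L +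
      (D.gg t₂ - D.gg t₁) * (D.om L + if L = P.oth x.r x.v then D.om (P.oth r x.v) - D.om x.v else 0) := by
  obtain ⟨xr, xv, xt⟩ := x
  simp only at hx ⊢
  unfold tcE
  simp only
  by_cases h : L = P.oth xr xv
  · rw [if_pos h, if_pos h, if_pos h]
    by_cases hv : xv = P.x r
    · rw [if_pos hv, if_pos hv]
      have e3 : P.oth r xv = P.y r := by unfold Puz.oth; rw [if_pos hv]
      rw [e3, ← hv]
      ring
    · have hv2 : xv = P.y r := by rcases hx.1 with h' | h'; exact absurd h' hv; exact h'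
      rw [if_neg hv, if_neg hv]
      have e3 : P.oth r xv = P.x r := by unfold Puz.oth; rw [if_neg hv]
      rw [e3, ← hv2]
      ring
  · rw [if_neg h, if_neg h, if_neg h]
    ring

/-- Waiting from another level. -/
theorem wcsE_t (c : F) (t₁ t₂ : ℕ) (s : St S R Tok) (x : TL S R) (l : List (TL S R)) (hx : P.Adj s.1 x.r x.v) :
    wcsE D d c t₁ s (x :: l) = wcsE D d c t₂ s (x :: l) + (D.gg t₂ - D.gg t₁) * GamE D d s x.r x.v := by
  show wcE D d c t₁ s x + _ = wcE D d c t₂ s x + _ + _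
  have h2 : wcE D d c t₁ s x = wcE D d c t₂ s x + (D.gg t₂ - D.gg t₁) * GamE D d s x.r x.v := by
    unfold wcE GamE
    rw [Finset.mul_sum, ← Finset.sum_add_distrib]
    refine Finset.sum_congr rfl fun i _ => ?_
    rw [tcE_t D c t₁ t₂ s.1 x hx]
    ring
  rw [h2]; ring

theorem capX_tau (l : List (TL S R)) : ∀ (c : F) (s : St S R Tok), c = D.ca (P.tau.symm s.1) →
    capX D c l = D.ca (P.tau.symm (runT P l s).1) := by
  induction l with
  | nil => intro c s h; exact h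
  | cons x l ih =>
    intro c s _
    refine ih _ (P.step x.r x.v s) ?_
    show D.ca x.r = D.ca (P.tau.symm (P.tau x.r))
    rw [Equiv.symm_apply_apply]

end cost

variable (W : WData Z)

/-- The window of a wordE. -/
theorem winE (l : List (TL S R)) (hl : Z.Val W.t₁ (P.tau W.f) l)
    (hs : runT P l (P.st₁ W.f) = P.stb W.f W.g W.v) (he : Z.endT W.t₁ l ≤ W.tC) :
    ∃ X : TW B, W.Is X ∧ ∀ {F : Type w} [CommRing F] (V : Ev B F) (D : VDE Z V) (d : P.TokOf W.f → F),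
        ∑ i : P.TokOf W.f, d i * V.vol (Z.vt i.1 W.t₀) (X.path (Z.vt i.1 W.t₀)) =
          ∑ i : P.TokOf W.f, d i * D.th W.f i.1 + (wcsE D d (D.ca W.f) W.t₁ (P.st₁ W.f) l +
          wcsE D d (capX D (D.ca W.f) l) (Z.endT W.t₁ l) (P.stb W.f W.g W.v) W.cl) +
          (D.gg W.T - D.gg (Z.endT W.tC W.cl)) *
            ∑ i : P.TokOf W.f, d i * D.om ((P.stb W.f W.g W.v).2 i) := by
  have hcl : Z.Val W.tC W.g W.cl := val_timed _ W.tC (P.stb W.f W.g W.v) W.ok_cl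
  have hcl' : Z.Val (Z.endT W.t₁ l) W.g W.cl := val_le _ he hcl
  have hend : Z.endT W.t₁ (l ++ W.cl) = Z.endT W.tC W.cl := by
    rw [endT_append]; rfl
  have hval : Z.Val W.t₁ (P.st₁ W.f).1 (l ++ W.cl) := by
    refine val_append _ _ _ _ hl ?_
    rw [hs]; exact hcl'
  have hrun : runT P (l ++ W.cl) (P.st₁ W.f) = P.stb W.f W.g W.v := by
    rw [runT_append, hs]
    show runT P (Z.timed W.tC ((W.f, W.v) :: W.m)) _ = _
    rw [runT_timed]; exact W.go_cl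
  obtain ⟨X, h1, h2, h3, h4, h5, h6, h7⟩ := flatE.{u, v, w} W.f W.g W.v W.adj W.ht₀ (l ++ W.cl) hval hrun
    (T := W.T) (by
      show Z.endT W.t₁ _ ≤ _
      rw [hend]; exact W.hT) W.h0
  have e1 : Z.endT (W.t₀ + Z.H W.f) (l ++ W.cl) = Z.endT W.tC W.cl := hend
  refine ⟨X, ⟨h1, h2, h3, h4, ?_, h6⟩, ?_⟩
  · rw [h5, e1, lcap_append]; rfl
  · intro F _ V D d
    rw [h7 V D d, e1, wcsE_append, hs]
    rfl

/-- Two words: twoE versions. -/
theorem twoE (l l' : List (TL S R)) (hl : Z.Val W.t₁ (P.tau W.f) l)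
    (hs : runT P l (P.st₁ W.f) = P.stb W.f W.g W.v) (he : Z.endT W.t₁ l ≤ W.tC)
    (hl' : Z.Val W.t₁ (P.tau W.f) l') (hs' : runT P l' (P.st₁ W.f) = P.stb W.f W.g W.v)
    (he' : Z.endT W.t₁ l' ≤ W.tC) :
    ∃ X X' : TW B, W.Is X ∧ Ver U X X' (W.T - W.t₀) (Z.vt (P.oth W.g W.v) W.t₀) ∧
      ∀ {F : Type w} [CommRing F] (V : Ev B F) (D : VDE Z V) (c : Q → F) (d : S → F),
        (∀ s, c (Z.vt s W.t₀) = d s) →
        dvolE V c X X' = wcsE D (fun i : P.TokOf W.f => d i.1) (D.ca W.f) W.t₁ (P.st₁ W.f) l' -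
          wcsE D (fun i : P.TokOf W.f => d i.1) (D.ca W.f) W.t₁ (P.st₁ W.f) l -
          (D.gg (Z.endT W.t₁ l') - D.gg (Z.endT W.t₁ l)) *
            GamE D (fun i : P.TokOf W.f => d i.1) (P.stb W.f W.g W.v) W.f W.v := by
  obtain ⟨X, hX, hv⟩ := winE.{u, v, w} W l hl hs he
  obtain ⟨X', hX', hv'⟩ := winE.{u, v, w} W l' hl' hs' he'
  refine ⟨X, X', hX, ⟨hX.flat, hX'.flat, by rw [hX.L₀, hX'.L₀], by rw [hX.u₀, hX'.u₀], by rw [hX.u₁, hX'.u₁],
    by rw [hX.cup, hX'.cup], by rw [hX.cap, hX'.cap]⟩, ?_⟩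
  intro F _ V D c d hd
  have h1 := hv V D fun i => d i.1
  have h2 := hv' V D fun i => d i.1
  have e1 : dvolE V c X X' = ∑ i : P.TokOf W.f, d i.1 * V.vol (Z.vt i.1 W.t₀) (X'.path (Z.vt i.1 W.t₀)) -
      ∑ i : P.TokOf W.f, d i.1 * V.vol (Z.vt i.1 W.t₀) (X.path (Z.vt i.1 W.t₀)) := by
    unfold dvolE
    rw [sum_tok (Z := Z) W.adj.2.1 hX.L₀ hX.u₀ hX.u₁, ← Finset.sum_sub_distrib]
    refine Finset.sum_congr rfl fun i _ => ?_
    rw [hd, mul_sub]
  have c1 : capX D (D.ca W.f) l = D.ca (P.tau.symm W.g) := by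
    rw [capX_tau D l (D.ca W.f) (P.st₁ W.f) (by
      show D.ca W.f = D.ca (P.tau.symm (P.tau W.f)); rw [Equiv.symm_apply_apply]), hs]
    rfl
  have c2 : capX D (D.ca W.f) l' = D.ca (P.tau.symm W.g) := by
    rw [capX_tau D l' (D.ca W.f) (P.st₁ W.f) (by
      show D.ca W.f = D.ca (P.tau.symm (P.tau W.f)); rw [Equiv.symm_apply_apply]), hs']
    rfl
  have c3 : wcsE D (fun i : P.TokOf W.f => d i.1) (D.ca (P.tau.symm W.g)) (Z.endT W.t₁ l')
      (P.stb W.f W.g W.v) W.cl = wcsE D (fun i : P.TokOf W.f => d i.1) (D.ca (P.tau.symm W.g)) (Z.endT W.t₁ l)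
      (P.stb W.f W.g W.v) W.cl + (D.gg (Z.endT W.t₁ l) - D.gg (Z.endT W.t₁ l')) *
        GamE D (fun i : P.TokOf W.f => d i.1) (P.stb W.f W.g W.v) W.f W.v :=
    wcsE_t D _ _ _ _ _ ⟨W.f, W.v, Z.nx W.tC W.f⟩ _ W.adj
  rw [e1, h1, h2, c1, c2, c3]
  ring

end Pool.Agent.Lib.MP_688fd0_co.SQ4
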